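import Pool.Agent.H344R3.FC.Lift

/-!
# All pairs `(n, m)` and all alphabets
-/

set_option autoImplicit false

namespace Pool.Agent.H344R3.FC

open Pool.Agent.H344R3.FB

/-- languages over an alphabet with at most one letter that are given by an ultimately periodic
set of lengths -/
theorem regular_of_lengths {α : Type*} {L : Language α} (P : ℕ → Prop) (K m : ℕ) (hm : 1 ≤ m)
    (hL : ∀ v, v ∈ L ↔ P v.length) (hP : ∀ i, K ≤ i → (P (i + m) ↔ P i)) : L.IsRegular := by
  refine Language.IsRegular.of_finite_range_leftQuotient ?_
  have hQ : ∀ i : ℕ, ∃ i', i' < K + m ∧ ∀ l, P (i + l) ↔ P (i' + l) := by
    intro i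
    induction i using Nat.strong_induction_on with
    | _ i ih =>
      by_cases h : i < K + m
      · exact ⟨i, h, fun l => Iff.rfl⟩
      · obtain ⟨i', h1, h2⟩ := ih (i - m) (by omega)
        refine ⟨i', h1, fun l => ?_⟩
        rw [← h2 l, ← hP (i - m + l) (by omega), show i - m + l + m = i + l by omega]
  refine Set.Finite.subset ((Set.finite_lt_nat (K + m)).image
    fun i => ({v | P (i + v.length)} : Language α)) ?_
  rintro _ ⟨x, rfl⟩
  obtain ⟨i', h1, h2⟩ := hQ x.length
  refine ⟨i', h1, ?_⟩
  ext v
  show P (i' + v.length) ↔ x ++ v ∈ L
  rw [hL, List.length_append, h2]

theorem eq_of_length {α : Type*} [Subsingleton α] : ∀ {v w : List α}, v.length = w.length →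
    v = w := by
  intro v
  induction v with
  | nil => intro w h; exact (List.eq_nil_of_length_eq_zero h.symm).symm
  | cons y v ih =>
    intro w h
    cases w with
    | nil => simp at h
    | cons z w => rw [Subsingleton.elim y z, ih (by simpa using h)]

theorem unary_all {α : Type*} [Subsingleton α] (n m : ℕ) (hn : 1 ≤ n) (hm : 1 ≤ m)
    (w : List α) : (Lang n m w).IsRegular := by
  by_cases hw : w.length < n
  · -- nothing can be derived
    refine regular_of_lengths (fun l => l = w.length) (w.length + 1) m hm ?_ ?_
    · intro v
      constructor
      · intro h
        have h' : Relation.ReflTransGen (Step n m) w v := h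
        induction h' with
        | refl => rfl
        | tail _ h2 ih =>
          have h3 := ih (by assumption)
          obtain ⟨p, x, q, h4, h5⟩ := h2
          have h6 := congrArg List.length h4
          rw [List.length_append, List.length_append, pw_length] at h6
          have h7 : x.length = 0 := by
            by_contra h8
            have : n * 1 ≤ n * x.length := Nat.mul_le_mul_left _ (by omega)
            omega
          rw [h5, List.length_append, List.length_append, pw_length, h7]
          rw [h7] at h6
          omega
      · intro h
        rw [eq_of_length h]
        exact lang_refl _ _ _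
    · intro i hi
      omega
  · refine regular_of_lengths (fun l => ∃ j, l = w.length + j * m) w.length m hm ?_ ?_
    · intro v
      constructor
      · intro h
        have h' : Relation.ReflTransGen (Step n m) w v := h
        induction h' with
        | refl => exact ⟨0, by simp⟩
        | tail _ h2 ih =>
          obtain ⟨j, h3⟩ := ih (by assumption)
          obtain ⟨p, x, q, h4, h5⟩ := h2
          refine ⟨j + x.length, ?_⟩
          have h6 := congrArg List.length h4
          rw [List.length_append, List.length_append, pw_length] at h6
          rw [h5, List.length_append, List.length_append, pw_length]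
          have h7 : (n + m) * x.length = n * x.length + x.length * m := by ring
          have h8 : (j + x.length) * m = j * m + x.length * m := by ring
          omega
      · rintro ⟨j, hj⟩
        induction j generalizing v with
        | zero =>
          rw [eq_of_length (v := v) (w := w) (by omega)]
          exact lang_refl _ _ _
        | succ j ih =>
          have e : (j + 1) * m = j * m + m := by ring
          obtain ⟨a, ha⟩ : ∃ a : α, a ∈ w := by
            cases w with
            | nil => simp at hw; omega
            | cons a w => exact ⟨a, by simp⟩
          have h1 := ih (v := List.replicate (w.length + j * m) a) (by simp)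
          refine lang_trans h1 (lang_step ⟨[], [a], List.replicate (w.length + j * m - n) a,
            eq_of_length ?_, eq_of_length ?_⟩)
          · simp only [List.length_append, List.length_replicate, pw_length, List.length_nil,
              List.length_cons]
            omega
          · simp only [List.length_append, List.length_replicate, pw_length, List.length_nil,
              List.length_cons]
            omega
    · intro i hi
      constructor
      · rintro ⟨j, hj⟩
        cases j with
        | zero => exact ⟨0, by omega⟩
        | succ j =>
          refine ⟨j, ?_⟩
          have e : (j + 1) * m = j * m + m := by ring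
          omega
      · rintro ⟨j, hj⟩
        refine ⟨j + 1, ?_⟩
        have e : (j + 1) * m = j * m + m := by ring
        omega

/-- The alphabets over which all languages `L(w)` are regular. -/
theorem alphabets (n m : ℕ) (hn : 1 ≤ n) (hm : 1 ≤ m) (hnm : ¬ (n = 1 ∧ m = 1)) (α : Type) :
    (∀ w : List α, (Lang n m w).IsRegular) ↔ Subsingleton α := by
  constructor
  · intro h
    refine ⟨fun a b => ?_⟩
    by_contra hab
    by_cases hn1 : n = 1
    · subst hn1
      have h1 := (one_iff m (by omega) [a, b]).1 (h [a, b]) a (by simp) b (by simp)
      exact hab h1
    · obtain ⟨w, -, hw⟩ := two_letters a b hab n m (by omega) hm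
      exact hw (h w)
  · intro h w
    exact unary_all n m hn hm w

end Pool.Agent.H344R3.FC
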