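import Pool.Agent.H344R3.FB.NonReg

/-!
# An automaton whose language of readable words is closed under the steps `x ^ n → x ^ (n + m)`,
`n ≥ 2`
-/

set_option autoImplicit false

namespace Pool.Agent.H344R3.FC

open Pool.Agent.H344R3.FB

/-- the letters -/
inductive Lt
  | a | b | d | e | h | c
  deriving DecidableEq

/-- the states -/
inductive St
  | start : St
  | cnt : ℕ → St

/-- the transitions -/
def tr (N : ℕ) : St → Lt → Option St
  | .start, .a => some .start
  | .start, .d => some (.cnt 0)
  | .start, _ => none
  | .cnt j, .a => if j < N then none else some (.cnt j)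
  | .cnt j, .b => if j < N then some (.cnt (j + 1)) else some (.cnt j)
  | .cnt j, .d => if j < N then none else some (.cnt j)
  | .cnt j, .e => if j < N then none else some .start
  | .cnt j, .h => if j < N then none else some .start
  | .cnt _, .c => none

/-- reading a word -/
def run (N : ℕ) : St → List Lt → Option St
  | s, [] => some s
  | s, y :: v => (tr N s y).bind fun t => run N t v

theorem run_nil (N : ℕ) (s : St) : run N s [] = some s := rfl

theorem run_cons (N : ℕ) (s : St) (y : Lt) (v : List Lt) :
    run N s (y :: v) = (tr N s y).bind fun t => run N t v := rfl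

theorem run_append (N : ℕ) (s : St) (u v : List Lt) :
    run N s (u ++ v) = (run N s u).bind fun t => run N t v := by
  induction u generalizing s with
  | nil => rfl
  | cons y u ih =>
    rw [List.cons_append, run_cons, run_cons]
    cases h : tr N s y with
    | none => rfl
    | some t => simp only [Option.bind_some]; exact ih t

/-- the order of the states -/
def le : St → St → Prop
  | .start, .start => True
  | .cnt i, .cnt j => i ≤ j
  | _, _ => False

theorem le.refl (s : St) : le s s := by
  cases s with
  | start => trivial
  | cnt j => exact le_refl j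

theorem le.trans {s t u : St} (h1 : le s t) (h2 : le t u) : le s u := by
  cases s <;> cases t <;> cases u <;> simp_all [le]
  omega

theorem tr_mono (N : ℕ) {s s' t : St} {y : Lt} (h : le s s') (ht : tr N s y = some t) :
    ∃ t', tr N s' y = some t' ∧ le t t' := by
  cases s with
  | start =>
    cases s' with
    | start => exact ⟨t, ht, le.refl t⟩
    | cnt j => exact absurd h (by simp [le])
  | cnt i =>
    cases s' with
    | start => exact absurd h (by simp [le])
    | cnt j =>
      have hij : i ≤ j := h
      by_cases hi : i < N
      · by_cases hj : j < N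
        · cases y <;> simp [tr, hi, hj] at ht ⊢
          subst ht
          simp [le]; omega
        · cases y <;> simp [tr, hi, hj] at ht ⊢
          subst ht
          simp [le]; omega
      · have hj : ¬ j < N := by omega
        cases y <;> simp [tr, hi, hj] at ht ⊢ <;> subst ht <;> simp [le]
        all_goals omega

theorem run_mono (N : ℕ) : ∀ (v : List Lt) {s s' t : St}, le s s' → run N s v = some t →
    ∃ t', run N s' v = some t' ∧ le t t' := by
  intro v
  induction v with
  | nil =>
    intro s s' t h ht
    simp only [run_nil, Option.some.injEq] at ht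
    subst ht
    exact ⟨s', rfl, h⟩
  | cons y v ih =>
    intro s s' t h ht
    rw [run_cons] at ht
    cases h1 : tr N s y with
    | none => rw [h1] at ht; simp at ht
    | some s1 =>
      rw [h1, Option.bind_some] at ht
      obtain ⟨s2, h2, h3⟩ := tr_mono N h h1
      obtain ⟨t', h4, h5⟩ := ih h3 ht
      exact ⟨t', by rw [run_cons, h2, Option.bind_some, h4], h5⟩

/-- a separator resets the automaton -/
theorem run_const (N : ℕ) : ∀ (x : List Lt), (Lt.e ∈ x ∨ Lt.h ∈ x) → ∀ {s s' t t' : St},
    run N s x = some t → run N s' x = some t' → t = t' := by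
  intro x
  induction x with
  | nil => intro h; simp at h
  | cons y x ih =>
    intro h s s' t t' h1 h2
    rw [run_cons] at h1 h2
    cases h3 : tr N s y with
    | none => rw [h3] at h1; simp at h1
    | some s1 =>
      cases h4 : tr N s' y with
      | none => rw [h4] at h2; simp at h2
      | some s1' =>
        rw [h3, Option.bind_some] at h1
        rw [h4, Option.bind_some] at h2
        by_cases hy : y = Lt.e ∨ y = Lt.h
        · have h5 : s1 = St.start := by
            rcases hy with rfl | rfl
            · cases s with
              | start => simp [tr] at h3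
              | cnt j => by_cases hj : j < N <;> simp [tr, hj] at h3; exact h3.symm
            · cases s with
              | start => simp [tr] at h3
              | cnt j => by_cases hj : j < N <;> simp [tr, hj] at h3; exact h3.symm
          have h6 : s1' = St.start := by
            rcases hy with rfl | rfl
            · cases s' with
              | start => simp [tr] at h4
              | cnt j => by_cases hj : j < N <;> simp [tr, hj] at h4; exact h4.symm
            · cases s' with
              | start => simp [tr] at h4
              | cnt j => by_cases hj : j < N <;> simp [tr, hj] at h4; exact h4.symm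
          subst h5
          subst h6
          rw [h1] at h2
          exact Option.some.inj h2
        · refine ih ?_ h1 h2
          rcases h with h | h
          · rcases List.mem_cons.1 h with h | h
            · exact absurd (Or.inl h.symm) hy
            · exact Or.inl h
          · rcases List.mem_cons.1 h with h | h
            · exact absurd (Or.inr h.symm) hy
            · exact Or.inr h

theorem run_cnt (N : ℕ) : ∀ (x : List Lt), Lt.e ∉ x → Lt.h ∉ x → ∀ {j : ℕ} {t : St},
    run N (St.cnt j) x = some t → ∃ j', j ≤ j' ∧ t = St.cnt j' := by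
  intro x
  induction x with
  | nil =>
    intro _ _ j t ht
    simp only [run_nil, Option.some.injEq] at ht
    exact ⟨j, le_refl _, ht.symm⟩
  | cons y x ih =>
    intro he hh j t ht
    rw [run_cons] at ht
    have he' : Lt.e ∉ x := fun h => he (List.mem_cons_of_mem _ h)
    have hh' : Lt.h ∉ x := fun h => hh (List.mem_cons_of_mem _ h)
    cases h3 : tr N (St.cnt j) y with
    | none => rw [h3] at ht; simp at ht
    | some s1 =>
      rw [h3, Option.bind_some] at ht
      have h5 : ∃ j1, j ≤ j1 ∧ s1 = St.cnt j1 := by
        by_cases hj : j < N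
        · cases y <;> simp [tr, hj] at h3
          exact ⟨j + 1, by omega, h3.symm⟩
        · cases y <;> simp [tr, hj] at h3
          · exact ⟨j, le_refl _, h3.symm⟩
          · exact ⟨j, le_refl _, h3.symm⟩
          · exact ⟨j, le_refl _, h3.symm⟩
          · exact absurd (List.mem_cons_self) he
          · exact absurd (List.mem_cons_self) hh
      obtain ⟨j1, h6, rfl⟩ := h5
      obtain ⟨j2, h7, h8⟩ := ih he' hh' ht
      exact ⟨j2, by omega, h8⟩

/-- the second reading of a word ends in a larger state than the first reading -/
theorem run_twice (N : ℕ) (x : List Lt) {s0 s1 s2 : St} (h1 : run N s0 x = some s1)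
    (h2 : run N s1 x = some s2) : le s1 s2 := by
  by_cases hx : Lt.e ∈ x ∨ Lt.h ∈ x
  · have := run_const N x hx h1 h2
    subst this
    exact le.refl _
  · push Not at hx
    cases s1 with
    | cnt j =>
      obtain ⟨j', h3, rfl⟩ := run_cnt N x hx.1 hx.2 h2
      exact h3
    | start =>
      cases s0 with
      | start =>
        rw [h1] at h2
        rw [← Option.some.inj h2]
        exact le.refl _
      | cnt j =>
        obtain ⟨j', h3, h4⟩ := run_cnt N x hx.1 hx.2 h1
        exact absurd h4 (by simp)

theorem run_pw_succ (N : ℕ) (x : List Lt) (k : ℕ) {s0 s1 t : St} (h1 : run N s0 x = some s1)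
    (h2 : run N s1 (pw x k) = some t) (hk : 1 ≤ k) :
    ∃ t', run N s1 (pw x (k + 1)) = some t' ∧ le t t' := by
  obtain ⟨k, rfl⟩ : ∃ k', k = k' + 1 := ⟨k - 1, by omega⟩
  have h3 := h2
  rw [pw_succ, run_append] at h3
  cases h4 : run N s1 x with
  | none => rw [h4] at h3; simp at h3
  | some s2 =>
    have h5 := run_twice N x h1 h4
    obtain ⟨t', h6, h7⟩ := run_mono N _ h5 h2
    refine ⟨t', ?_, h7⟩
    rw [pw_succ, run_append, h4, Option.bind_some]
    exact h6

theorem run_pw (N n m : ℕ) (hn : 2 ≤ n) (x : List Lt) {s0 t : St}
    (h : run N s0 (pw x n) = some t) : ∃ t', run N s0 (pw x (n + m)) = some t' ∧ le t t' := by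
  obtain ⟨k, rfl⟩ : ∃ k, n = k + 1 := ⟨n - 1, by omega⟩
  rw [pw_succ, run_append] at h
  cases h1 : run N s0 x with
  | none => rw [h1] at h; simp at h
  | some s1 =>
    rw [h1, Option.bind_some] at h
    have key : ∀ m, ∃ t', run N s1 (pw x (k + m)) = some t' ∧ le t t' := by
      intro m
      induction m with
      | zero => exact ⟨t, h, le.refl t⟩
      | succ m ih =>
        obtain ⟨t1, h2, h3⟩ := ih
        obtain ⟨t', h4, h5⟩ := run_pw_succ N x (k + m) h1 h2 (by omega)
        exact ⟨t', h4, h3.trans h5⟩
    obtain ⟨t', h2, h3⟩ := key m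
    refine ⟨t', ?_, h3⟩
    rw [show k + 1 + m = (k + m) + 1 by omega, pw_succ, run_append, h1, Option.bind_some]
    exact h2

/-- readable words -/
def Rd (N : ℕ) (s : St) (v : List Lt) : Prop := ∃ t, run N s v = some t

theorem Rd.step {N n m : ℕ} (hn : 2 ≤ n) {s : St} {v v' : List Lt} (h : Rd N s v)
    (hs : Step n m v v') : Rd N s v' := by
  obtain ⟨p, x, q, rfl, rfl⟩ := hs
  obtain ⟨t, ht⟩ := h
  rw [run_append, run_append] at ht
  cases h1 : run N s p with
  | none => rw [h1] at ht; simp at ht
  | some s1 =>
    rw [h1, Option.bind_some] at ht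
    cases h2 : run N s1 (pw x n) with
    | none => rw [h2] at ht; simp at ht
    | some s2 =>
      rw [h2, Option.bind_some] at ht
      obtain ⟨s3, h3, h4⟩ := run_pw N n m hn x h2
      obtain ⟨t', h5, -⟩ := run_mono N q h4 ht
      refine ⟨t', ?_⟩
      rw [run_append, run_append, h1, Option.bind_some, h3, Option.bind_some, h5]

theorem Rd.left {N : ℕ} {s : St} {u v : List Lt} (h : Rd N s (u ++ v)) : Rd N s u := by
  obtain ⟨t, ht⟩ := h
  rw [run_append] at ht
  cases h1 : run N s u with
  | none => rw [h1] at ht; simp at ht
  | some s1 => exact ⟨s1, h1⟩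

/-- exchange of `a` and `b` -/
def sw : Lt → Lt
  | .a => .b
  | .b => .a
  | .d => .d
  | .e => .e
  | .h => .h
  | .c => .c

/-- reversal together with the exchange of `a` and `b` -/
def rs (v : List Lt) : List Lt := (v.map sw).reverse

@[simp] theorem rs_nil : rs [] = [] := rfl
theorem rs_append (u v : List Lt) : rs (u ++ v) = rs v ++ rs u := by simp [rs]
theorem rs_single (y : Lt) : rs [y] = [sw y] := rfl
theorem rs_cons (y : Lt) (v : List Lt) : rs (y :: v) = rs v ++ [sw y] := by
  rw [show y :: v = [y] ++ v from rfl, rs_append, rs_single]
theorem sw_sw (y : Lt) : sw (sw y) = y := by cases y <;> rfl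
theorem rs_rs (v : List Lt) : rs (rs v) = v := by
  induction v with
  | nil => rfl
  | cons y v ih => rw [rs_cons, rs_append, rs_single, sw_sw, ih]; rfl

theorem rs_pw (x : List Lt) (k : ℕ) : rs (pw x k) = pw (rs x) k := by
  induction k with
  | zero => simp
  | succ k ih =>
    rw [pw_succ, rs_append, ih]
    have : pw (rs x) k ++ rs x = pw (rs x) (k + 1) := by
      rw [pw_add, pw_one]
    exact this

theorem rs_step {n m : ℕ} {v v' : List Lt} (h : Step n m v v') : Step n m (rs v) (rs v') := by
  obtain ⟨p, x, q, rfl, rfl⟩ := h
  refine ⟨rs q, rs x, rs p, ?_, ?_⟩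
  · rw [rs_append, rs_append, rs_pw, List.append_assoc]
  · rw [rs_append, rs_append, rs_pw, List.append_assoc]

/-- first invariant -/
def I1 (N : ℕ) (v : List Lt) : Prop := Rd N (St.cnt N) (rs v)
/-- second invariant -/
def I2 (N : ℕ) (v : List Lt) : Prop := Rd N St.start v

theorem I1.step {N n m : ℕ} (hn : 2 ≤ n) {v v' : List Lt} (h : I1 N v) (hs : Step n m v v') :
    I1 N v' := Rd.step hn h (rs_step hs)

theorem I2.step {N n m : ℕ} (hn : 2 ≤ n) {v v' : List Lt} (h : I2 N v) (hs : Step n m v v') :
    I2 N v' := Rd.step hn h hs

theorem I1.right {N : ℕ} {u v : List Lt} (h : I1 N (u ++ v)) : I1 N v := by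
  have h' : Rd N (St.cnt N) (rs v ++ rs u) := by rw [← rs_append]; exact h
  exact h'.left

end Pool.Agent.H344R3.FC
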