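import Pool.Agent.H344R3.FC.Auto

/-!
# Words divided into blocks by a separator
-/

set_option autoImplicit false

namespace Pool.Agent.H344R3.FC

open Pool.Agent.H344R3.FB

variable {α : Type*}

/-- the blocks `u` of the list, each followed by the letter `c` -/
def J (c : α) (U : List (List α)) : List α := U.flatMap fun u => u ++ [c]

@[simp] theorem J_nil (c : α) : J c [] = [] := rfl
theorem J_cons (c : α) (u : List α) (U : List (List α)) : J c (u :: U) = u ++ (c :: J c U) := by
  simp [J]
theorem J_append (c : α) (U U' : List (List α)) : J c (U ++ U') = J c U ++ J c U' := by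
  simp [J]

theorem loc (c : α) (U : List (List α)) : ∀ {p y q : List α}, J c U = p ++ (y ++ q) → c ∉ y →
    y ≠ [] → ∃ (U' : List (List α)) (t : List α) (U'' : List (List α)) (p' q' : List α),
      U = U' ++ t :: U'' ∧ t = p' ++ (y ++ q') ∧ p = J c U' ++ p' ∧ q = q' ++ c :: J c U'' := by
  induction U with
  | nil =>
    intro p y q h _ hne
    simp at h
    exact absurd h.2.1 hne
  | cons t U ih =>
    intro p y q h hy hne
    rw [J_cons] at h
    rcases List.append_eq_append_iff.1 h with ⟨p2, h1, h2⟩ | ⟨t2, h1, h2⟩
    · -- p = t ++ p2
      cases p2 with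
      | nil =>
        exfalso
        cases y with
        | nil => exact hne rfl
        | cons y0 y =>
          simp only [List.nil_append, List.cons_append, List.cons.injEq] at h2
          exact hy (by rw [h2.1]; exact List.mem_cons_self)
      | cons z p3 =>
        simp only [List.cons_append, List.cons.injEq] at h2
        obtain ⟨rfl, h2⟩ := h2
        obtain ⟨U', t', U'', p', q', e1, e2, e3, e4⟩ := ih h2 hy hne
        refine ⟨t :: U', t', U'', p', q', by rw [e1]; rfl, e2, ?_, e4⟩
        rw [h1, e3, J_cons]
        simp
    · -- t = p ++ t2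
      rcases List.append_eq_append_iff.1 h2 with ⟨q', h3, h4⟩ | ⟨y2, h3, h4⟩
      · exact ⟨[], t, U, p, q', rfl, by rw [h1, h3], by simp, h4⟩
      · cases y2 with
        | nil =>
          refine ⟨[], t, U, p, [], rfl, ?_, by simp, ?_⟩
          · rw [h1, h3]; simp
          · simpa using h4.symm
        | cons z y2 =>
          exfalso
          simp only [List.cons_append, List.cons.injEq] at h4
          refine hy ?_
          rw [h3, h4.1]
          simp

theorem split_unique (c : α) : ∀ {u u' r r' : List α}, c ∉ u → c ∉ u' →
    u ++ c :: r = u' ++ c :: r' → u = u' ∧ r = r' := by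
  intro u
  induction u with
  | nil =>
    intro u' r r' _ h2 h
    cases u' with
    | nil => simpa using h
    | cons z u' =>
      simp only [List.nil_append, List.cons_append, List.cons.injEq] at h
      exact absurd (by rw [h.1]; exact List.mem_cons_self) h2
  | cons y u ih =>
    intro u' r r' h1 h2 h
    cases u' with
    | nil =>
      simp only [List.nil_append, List.cons_append, List.cons.injEq] at h
      exact absurd (by rw [← h.1]; exact List.mem_cons_self) h1
    | cons z u' =>
      simp only [List.cons_append, List.cons.injEq] at h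
      obtain ⟨h3, h4⟩ := ih (fun h' => h1 (List.mem_cons_of_mem _ h'))
        (fun h' => h2 (List.mem_cons_of_mem _ h')) h.2
      exact ⟨by rw [h.1, h3], h4⟩

theorem J_inj (c : α) : ∀ {U U' : List (List α)}, (∀ u ∈ U, c ∉ u) → (∀ u ∈ U', c ∉ u) →
    J c U = J c U' → U = U' := by
  intro U
  induction U with
  | nil =>
    intro U' _ _ h
    cases U' with
    | nil => rfl
    | cons u U' => rw [J_nil, J_cons] at h; simp at h
  | cons u U ih =>
    intro U' h1 h2 h
    cases U' with
    | nil => rw [J_nil, J_cons] at h; simp at h
    | cons u' U' =>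
      rw [J_cons, J_cons] at h
      obtain ⟨h3, h4⟩ := split_unique c (h1 u (by simp)) (h2 u' (by simp)) h
      rw [h3, ih (fun v hv => h1 v (by simp [hv])) (fun v hv => h2 v (by simp [hv])) h4]

theorem J_replicate (c : α) (u : List α) (k : ℕ) : J c (List.replicate k u) = pw (u ++ [c]) k := by
  induction k with
  | zero => simp
  | succ k ih => rw [List.replicate_succ, J_cons, ih, pw_succ]; simp

theorem J_count [DecidableEq α] (c : α) (U : List (List α)) (h : ∀ u ∈ U, c ∉ u) :
    (J c U).count c = U.length := by
  induction U with
  | nil => simp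
  | cons u U ih =>
    rw [J_cons, List.count_append, List.count_cons_self,
      List.count_eq_zero_of_not_mem (h u (by simp)), ih (fun v hv => h v (by simp [hv]))]
    simp

theorem pw_count [DecidableEq α] (c : α) (x : List α) (k : ℕ) :
    (pw x k).count c = k * x.count c := by
  induction k with
  | zero => simp
  | succ k ih => rw [pw_succ, List.count_append, ih]; ring

theorem mem_pw {c : α} {x : List α} {k : ℕ} (h : c ∈ pw x k) : c ∈ x := by
  induction k with
  | zero => simp at h
  | succ k ih =>
    rw [pw_succ] at h
    rcases List.mem_append.1 h with h | h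
    · exact h
    · exact ih h

/-- a step inside one of the blocks -/
theorem step_block {c : α} {n m : ℕ} (hn : 0 < n) {U : List (List α)} {p x q : List α}
    (h : J c U = p ++ pw x n ++ q) (hx : c ∉ x) (hne : x ≠ []) :
    ∃ (U' : List (List α)) (t t' : List α) (U'' : List (List α)),
      U = U' ++ t :: U'' ∧ Step n m t t' ∧ p ++ pw x (n + m) ++ q = J c (U' ++ t' :: U'') := by
  rw [List.append_assoc] at h
  obtain ⟨U', t, U'', p', q', h1, h2, h3, h4⟩ := loc c U h (fun h' => hx (mem_pw h')) (by
    intro h'
    have := congrArg List.length h'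
    rw [pw_length] at this
    have h5 := Nat.mul_pos hn (List.length_pos_of_ne_nil hne)
    rw [this] at h5
    simp at h5)
  refine ⟨U', t, p' ++ pw x (n + m) ++ q', U'', h1, ⟨p', x, q', by rw [h2]; simp, rfl⟩, ?_⟩
  rw [h3, h4, J_append, J_cons]
  simp

end Pool.Agent.H344R3.FC
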