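import Pool.Agent.H344R3.FC.Main

/-!
# A binary code in which all powers of exponent at least three are powers of code words
-/

set_option autoImplicit false

namespace Pool.Agent.H344R3.FC

open Pool.Agent.H344R3.FB

/-- the code words -/
def cd : Lt → List Bool
  | .a => [true, false, false, true, false, true, true, false, true, false, true, true, false]
  | .b => [true, true, false, false, true, false, true, true, false, true, true, false, false]
  | .d => [true, true, false, false, true, false, false, true, false, true, true, false, false]
  | .e => [true, false, false, true, true, false, false, true, false, false, true, true, false]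
  | .h => [true, false, false, true, true, false, true, true, false, false, true, true, false]
  | .c => [true, false, false, true, false, true, false, false, true, false, true, true, false]

/-- all letters -/
def lts : List Lt := [.a, .b, .d, .e, .h, .c]

theorem mem_lts (y : Lt) : y ∈ lts := by cases y <;> decide

theorem cd_len (y : Lt) : (cd y).length = 13 := by cases y <;> rfl

/-- comparison of the first `k` letters -/
def cmp : ℕ → List Bool → List Bool → Bool
  | 0, _, _ => true
  | k + 1, x :: l, y :: l' => (x == y) && cmp k l l'
  | _ + 1, _, _ => false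

theorem cmp_of {k : ℕ} : ∀ {l l' : List Bool}, k ≤ l.length → k ≤ l'.length →
    (∀ s, s < k → l[s]? = l'[s]?) → cmp k l l' = true := by
  induction k with
  | zero => intro l l' _ _ _; rfl
  | succ k ih =>
    intro l l' h1 h2 h
    cases l with
    | nil => simp at h1
    | cons x l =>
      cases l' with
      | nil => simp at h2
      | cons y l' =>
        have h3 := h 0 (by omega)
        simp only [List.getElem?_cons_zero, Option.some.injEq] at h3
        simp only [cmp, h3, beq_self_eq_true, Bool.true_and]
        refine ih (by simpa using h1) (by simpa using h2) ?_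
        intro s hs
        have := h (s + 1) (by omega)
        simpa using this

/-- no factor of three code words has a small period `p` and length `min (3 p) 27` -/
def ck1 : Bool := lts.all fun x => lts.all fun y => lts.all fun z =>
  let w := cd x ++ (cd y ++ cd z)
  (List.range 13).all fun t => (List.range 12).all fun p =>
    !cmp (min (3 * (p + 1)) 27 - (p + 1)) (w.drop t) (w.drop (t + (p + 1)))

theorem ck1_true : ck1 = true := by decide +kernel

/-- code words occur in products of two code words only at the obvious places -/
def ck2 : Bool := lts.all fun x => lts.all fun y => lts.all fun z =>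
  let w := cd x ++ cd y
  (List.range 12).all fun t => !cmp 13 (w.drop (t + 1)) (cd z)

theorem ck2_true : ck2 = true := by decide +kernel

/-- code words are determined by their first seven and by their last seven letters -/
def ck3 : Bool := lts.all fun x => lts.all fun y => decide (x = y) ||
  (!cmp 7 (cd x) (cd y) && !cmp 7 ((cd x).drop 6) ((cd y).drop 6))

theorem ck3_true : ck3 = true := by decide +kernel

theorem cd_pre {x y : Lt} (h : ∀ s, s < 7 → (cd x)[s]? = (cd y)[s]?) : x = y := by
  have h1 := ck3_true
  simp only [ck3, List.all_eq_true] at h1
  have h2 := h1 x (mem_lts x) y (mem_lts y)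
  by_contra hne
  rw [decide_eq_false hne, Bool.false_or] at h2
  have h3 : cmp 7 (cd x) (cd y) = true := cmp_of (by rw [cd_len]; omega) (by rw [cd_len]; omega) h
  rw [h3] at h2
  simp at h2

theorem cd_suf {x y : Lt} (h : ∀ s, 6 ≤ s → s < 13 → (cd x)[s]? = (cd y)[s]?) : x = y := by
  have h1 := ck3_true
  simp only [ck3, List.all_eq_true] at h1
  have h2 := h1 x (mem_lts x) y (mem_lts y)
  by_contra hne
  rw [decide_eq_false hne, Bool.false_or] at h2
  have h3 : cmp 7 ((cd x).drop 6) ((cd y).drop 6) = true := by
    refine cmp_of (by rw [List.length_drop, cd_len]) (by rw [List.length_drop, cd_len]) ?_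
    intro s hs
    rw [List.getElem?_drop, List.getElem?_drop]
    exact h _ (by omega) (by omega)
  rw [h3] at h2
  simp at h2

/-- the encoding -/
def H (v : List Lt) : List Bool := v.flatMap cd

@[simp] theorem H_nil : H [] = [] := rfl
theorem H_cons (y : Lt) (v : List Lt) : H (y :: v) = cd y ++ H v := by simp [H]
theorem H_append (u v : List Lt) : H (u ++ v) = H u ++ H v := by simp [H]

theorem H_len (v : List Lt) : (H v).length = 13 * v.length := by
  induction v with
  | nil => rfl
  | cons y v ih => rw [H_cons, List.length_append, cd_len, ih, List.length_cons]; ring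

theorem H_pos : ∀ (v : List Lt) (i j : ℕ), j < 13 →
    (H v)[13 * i + j]? = (v[i]?).bind fun y => (cd y)[j]? := by
  intro v
  induction v with
  | nil => intro i j _; simp
  | cons y v ih =>
    intro i j hj
    rw [H_cons]
    cases i with
    | zero =>
      rw [List.getElem?_append_left (by rw [cd_len]; omega)]
      simp
    | succ i =>
      rw [List.getElem?_append_right (by rw [cd_len]; omega), cd_len,
        List.getElem?_cons_succ, ← ih i j hj]
      congr 1
      omega

theorem H_pos' {v : List Lt} {i : ℕ} {y : Lt} (h : v[i]? = some y) {j : ℕ} (hj : j < 13) :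
    (H v)[13 * i + j]? = (cd y)[j]? := by
  rw [H_pos v i j hj, h, Option.bind_some]

theorem pow_period {β : Type*} {u p x q : List β} {N : ℕ} (h : u = p ++ (pw x N ++ q)) (t : ℕ)
    (h1 : p.length ≤ t) (h2 : t + x.length < p.length + N * x.length) :
    u[t]? = u[t + x.length]? := by
  have h3 := per_pw x N (t - p.length) (by rw [pw_length]; omega)
  rw [h, List.getElem?_append_right (by omega), List.getElem?_append_left (by
    rw [pw_length]; omega), List.getElem?_append_right (by omega),
    List.getElem?_append_left (by rw [pw_length]; omega), h3]
  congr 1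
  omega

/-- the root of a power has a length divisible by the length of the code words -/
theorem root_len {v : List Lt} {p x q : List Bool} {N : ℕ} (hN : 3 ≤ N) (hx : x ≠ [])
    (h : H v = p ++ (pw x N ++ q)) : 13 ∣ x.length := by
  have hxl : 0 < x.length := List.length_pos_of_ne_nil hx
  have hN3 : 3 * x.length ≤ N * x.length := Nat.mul_le_mul_right _ hN
  have hlen : 13 * v.length = p.length + (N * x.length + q.length) := by
    rw [← H_len, h, List.length_append, List.length_append, pw_length]
  by_cases hsmall : x.length < 13
  · exfalso
    -- three code words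
    set i := p.length / 13 with hi
    set t := p.length % 13 with ht
    have hit : 13 * i + t = p.length := Nat.div_add_mod _ _
    have htl : t < 13 := Nat.mod_lt _ (by omega)
    have hiv : i < v.length := by omega
    have h' : H (v ++ [Lt.a, Lt.a]) = p ++ (pw x N ++ (q ++ H [Lt.a, Lt.a])) := by
      rw [H_append, h]; simp
    set v' := v ++ [Lt.a, Lt.a] with hv'
    have hv'l : v'.length = v.length + 2 := by simp [hv']
    obtain ⟨x0, hx0⟩ : ∃ y, v'[i]? = some y := ⟨_, List.getElem?_eq_getElem (by omega)⟩
    obtain ⟨y0, hy0⟩ : ∃ y, v'[i + 1]? = some y := ⟨_, List.getElem?_eq_getElem (by omega)⟩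
    obtain ⟨z0, hz0⟩ : ∃ y, v'[i + 2]? = some y := ⟨_, List.getElem?_eq_getElem (by omega)⟩
    have hw : ∀ s, s < 39 → (H v')[13 * i + s]? = (cd x0 ++ (cd y0 ++ cd z0))[s]? := by
      intro s hs
      by_cases h1 : s < 13
      · rw [H_pos' hx0 h1, List.getElem?_append_left (by rw [cd_len]; exact h1)]
      · by_cases h2 : s < 26
        · rw [show 13 * i + s = 13 * (i + 1) + (s - 13) by omega, H_pos' hy0 (by omega),
            List.getElem?_append_right (by rw [cd_len]; omega), cd_len,
            List.getElem?_append_left (by rw [cd_len]; omega)]
        · rw [show 13 * i + s = 13 * (i + 2) + (s - 26) by omega, H_pos' hz0 (by omega),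
            List.getElem?_append_right (by rw [cd_len]; omega), cd_len,
            List.getElem?_append_right (by rw [cd_len]; omega), cd_len]
          congr 1
    have h1 := ck1_true
    simp only [ck1, List.all_eq_true, List.mem_range] at h1
    have h2 := h1 x0 (mem_lts _) y0 (mem_lts _) z0 (mem_lts _) t htl (x.length - 1) (by omega)
    rw [show x.length - 1 + 1 = x.length by omega] at h2
    have hwl : (cd x0 ++ (cd y0 ++ cd z0)).length = 39 := by
      simp [cd_len]
    have h3 : cmp (min (3 * x.length) 27 - x.length) ((cd x0 ++ (cd y0 ++ cd z0)).drop t)
        ((cd x0 ++ (cd y0 ++ cd z0)).drop (t + x.length)) = true := by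
      refine cmp_of (by rw [List.length_drop, hwl]; omega)
        (by rw [List.length_drop, hwl]; omega) ?_
      intro s hs
      rw [List.getElem?_drop, List.getElem?_drop, ← hw _ (by omega), ← hw _ (by omega)]
      have := pow_period h' (13 * i + (t + s)) (by omega) (by omega)
      rw [this]
      congr 1
      omega
    rw [h3] at h2
    simp at h2
  · -- a code word at a wrong place
    by_contra hnd
    set i := (p.length + 12) / 13 with hi
    have hi1 : 13 * i ≤ p.length + 12 := Nat.mul_div_le _ _
    have hi2 : p.length ≤ 13 * i := by omega
    set i' := (13 * i + x.length) / 13 with hi'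
    set t' := (13 * i + x.length) % 13 with ht'
    have hit : 13 * i' + t' = 13 * i + x.length := Nat.div_add_mod _ _
    have htl : t' < 13 := Nat.mod_lt _ (by omega)
    have ht0 : 0 < t' := by
      rcases Nat.eq_zero_or_pos t' with h0 | h0
      · exfalso
        apply hnd
        omega
      · exact h0
    obtain ⟨z0, hz0⟩ : ∃ y, v[i]? = some y := ⟨_, List.getElem?_eq_getElem (by omega)⟩
    obtain ⟨x0, hx0⟩ : ∃ y, v[i']? = some y := ⟨_, List.getElem?_eq_getElem (by omega)⟩
    obtain ⟨y0, hy0⟩ : ∃ y, v[i' + 1]? = some y := ⟨_, List.getElem?_eq_getElem (by omega)⟩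
    have h1 := ck2_true
    simp only [ck2, List.all_eq_true, List.mem_range] at h1
    have h2 := h1 x0 (mem_lts _) y0 (mem_lts _) z0 (mem_lts _) (t' - 1) (by omega)
    rw [show t' - 1 + 1 = t' by omega] at h2
    have h3 : cmp 13 ((cd x0 ++ cd y0).drop t') (cd z0) = true := by
      refine cmp_of (by rw [List.length_drop, List.length_append, cd_len, cd_len]; omega)
        (by rw [cd_len]) ?_
      intro s hs
      rw [List.getElem?_drop, ← H_pos' hz0 hs]
      rw [pow_period h (13 * i + s) (by omega) (by omega),
        show 13 * i + s + x.length = 13 * i' + (t' + s) by omega]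
      by_cases h4 : t' + s < 13
      · rw [H_pos' hx0 h4, List.getElem?_append_left (by rw [cd_len]; exact h4)]
      · rw [show 13 * i' + (t' + s) = 13 * (i' + 1) + (t' + s - 13) by omega,
          H_pos' hy0 (by omega), List.getElem?_append_right (by rw [cd_len]; omega), cd_len]
    rw [h3] at h2
    simp at h2

end Pool.Agent.H344R3.FC
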