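import Pool.Agent.H344R3.FC.Blocks
import Pool.Agent.H344R3.FB.TM

/-!
# The gadget
-/

set_option autoImplicit false

namespace Pool.Agent.H344R3.FC

open Pool.Agent.H344R3.FB

/-- `a ^ i d b ^ j` -/
def g (i j : ℕ) : List Lt := List.replicate i Lt.a ++ Lt.d :: List.replicate j Lt.b

theorem rs_replicate (k : ℕ) (y : Lt) : rs (List.replicate k y) = List.replicate k (sw y) := by
  simp [rs]

theorem rs_g (i j : ℕ) : rs (g i j) = g j i := by
  rw [g, rs_append, rs_cons, rs_replicate, rs_replicate, g]
  simp [sw]

/-- the part with `k` small letters between the two large ones -/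
def Dk (n N k : ℕ) : List Lt := g n N ++ (pw (g n n) k ++ g N n)

theorem rs_Dk (n N k : ℕ) : rs (Dk n N k) = Dk n N k := by
  rw [Dk, rs_append, rs_append, rs_pw, rs_g, rs_g, rs_g, List.append_assoc]

theorem g_count_d (i j : ℕ) : (g i j).count Lt.d = 1 := by
  rw [g, List.count_append, List.count_cons_self, List.count_replicate, List.count_replicate]
  simp

theorem Dk_count_d (n N k : ℕ) : (Dk n N k).count Lt.d = k + 2 := by
  rw [Dk, List.count_append, List.count_append, pw_count, g_count_d, g_count_d, g_count_d]
  omega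

theorem Dk_not (n N k : ℕ) : Lt.e ∉ Dk n N k ∧ Lt.h ∉ Dk n N k ∧ Lt.c ∉ Dk n N k := by
  have hg : ∀ i j, Lt.e ∉ g i j ∧ Lt.h ∉ g i j ∧ Lt.c ∉ g i j := by
    intro i j
    simp [g, List.mem_replicate]
  refine ⟨?_, ?_, ?_⟩
  · intro h
    rcases List.mem_append.1 h with h | h
    · exact (hg _ _).1 h
    · rcases List.mem_append.1 h with h | h
      · exact (hg _ _).1 (mem_pw h)
      · exact (hg _ _).1 h
  · intro h
    rcases List.mem_append.1 h with h | h
    · exact (hg _ _).2.1 h
    · rcases List.mem_append.1 h with h | h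
      · exact (hg _ _).2.1 (mem_pw h)
      · exact (hg _ _).2.1 h
  · intro h
    rcases List.mem_append.1 h with h | h
    · exact (hg _ _).2.2 h
    · rcases List.mem_append.1 h with h | h
      · exact (hg _ _).2.2 (mem_pw h)
      · exact (hg _ _).2.2 h

/-- the beginning of a part -/
theorem Dk_head (n N k : ℕ) : ∃ i r, Dk n N (k + 1) = List.replicate n Lt.a ++ Lt.d ::
    ((List.replicate N Lt.b ++ List.replicate n Lt.a) ++ Lt.d ::
    ((List.replicate n Lt.b ++ List.replicate i Lt.a) ++ Lt.d :: r)) := by
  cases k with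
  | zero =>
    refine ⟨N, List.replicate n Lt.b, ?_⟩
    rw [Dk, Nat.zero_add, pw_one]
    simp [g]
  | succ k =>
    refine ⟨n, List.replicate n Lt.b ++ (pw (g n n) k ++ g N n), ?_⟩
    rw [Dk, pw_succ, pw_succ]
    simp [g]

theorem no_d_left {n N k : ℕ} (hnN : n < N) (hN : 3 ≤ N) {p x q : List Lt}
    (h : Dk n N (k + 1) = p ++ (pw x N ++ q)) (hp : Lt.d ∉ p) (hx : x.count Lt.d = 1) : False := by
  obtain ⟨i, r, hr⟩ := Dk_head n N k
  have hdx : Lt.d ∈ x := by
    by_contra h'
    rw [List.count_eq_zero_of_not_mem h'] at hx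
    omega
  obtain ⟨y, z, hxyz⟩ := List.append_of_mem hdx
  have hy : Lt.d ∉ y := by
    intro h'
    have := List.count_pos_iff.2 h'
    rw [hxyz, List.count_append, List.count_cons_self] at hx
    omega
  have hz : Lt.d ∉ z := by
    intro h'
    have := List.count_pos_iff.2 h'
    rw [hxyz, List.count_append, List.count_cons_self] at hx
    omega
  obtain ⟨M, hM⟩ : ∃ M, N = M + 1 + 1 + 1 := ⟨N - 3, by omega⟩
  have e : p ++ (pw x N ++ q) = (p ++ y) ++ Lt.d :: ((z ++ y) ++ Lt.d :: ((z ++ y) ++ Lt.d ::
      (z ++ (pw x M ++ q)))) := by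
    rw [hM, pw_succ, pw_succ, pw_succ]
    generalize pw x M = Y
    rw [hxyz]
    simp
  rw [e, hr] at h
  have n1 : Lt.d ∉ List.replicate n Lt.a := by simp [List.mem_replicate]
  have n2 : ∀ i j, Lt.d ∉ List.replicate i Lt.b ++ List.replicate j Lt.a := by
    intro i j; simp [List.mem_replicate]
  have n3 : Lt.d ∉ p ++ y := by simp [hp, hy]
  have n4 : Lt.d ∉ z ++ y := by simp [hz, hy]
  obtain ⟨-, h1⟩ := split_unique Lt.d n1 n3 h
  obtain ⟨h2, h3⟩ := split_unique Lt.d (n2 _ _) n4 h1
  obtain ⟨h4, -⟩ := split_unique Lt.d (n2 _ _) n4 h3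
  rw [← h4] at h2
  have h5 := congrArg (List.count Lt.b) h2
  simp only [List.count_append, List.count_replicate_self] at h5
  have h6 : ∀ j, List.count Lt.b (List.replicate j Lt.a) = 0 := by
    intro j; rw [List.count_replicate]; rfl
  rw [h6, h6] at h5
  omega

/-- a power inside a part contains no `d` -/
theorem Dk_no_d {n N k : ℕ} (hnN : n < N) (hN : 3 ≤ N) (hk : k + 2 ≤ N) {p x q : List Lt}
    (h : Dk n N (k + 1) = p ++ (pw x N ++ q)) : Lt.d ∉ x := by
  intro hdx
  have h1 := congrArg (List.count Lt.d) h
  rw [Dk_count_d, List.count_append, List.count_append, pw_count] at h1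
  have h2 : 0 < x.count Lt.d := List.count_pos_iff.2 hdx
  have h3 : x.count Lt.d = 1 := by
    by_contra h'
    have : N * 2 ≤ N * x.count Lt.d := Nat.mul_le_mul_left _ (by omega)
    omega
  rw [h3] at h1
  have h4 : p.count Lt.d = 0 ∨ q.count Lt.d = 0 := by omega
  rcases h4 with h4 | h4
  · exact no_d_left hnN hN h (List.count_eq_zero.1 h4) h3
  · have h5 := congrArg rs h
    rw [rs_Dk, rs_append, rs_append, rs_pw, List.append_assoc] at h5
    refine no_d_left hnN hN h5 ?_ ?_
    · intro h6
      have h7 : Lt.d ∈ q := by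
        simp only [rs, List.mem_reverse, List.mem_map] at h6
        obtain ⟨y, hy, hy'⟩ := h6
        cases y <;> simp [sw] at hy'
        exact hy
      exact (List.count_eq_zero.1 h4) h7
    · have : (rs x).count Lt.d = x.count Lt.d := by
        clear h5 h4 h1 h2 h3 hdx h
        induction x with
        | nil => rfl
        | cons y x ih =>
          rw [rs_cons, List.count_append, ih, List.count_cons]
          cases y <;> simp [sw]
      rw [this, h3]

theorem seg_aux (n N k : ℕ) : List.replicate n Lt.b ++ ((pw (g n n) k ++ g N n) ++ [Lt.d]) =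
    J Lt.d (List.replicate k (List.replicate n Lt.b ++ List.replicate n Lt.a) ++
      [List.replicate n Lt.b ++ List.replicate N Lt.a, List.replicate n Lt.b]) := by
  induction k with
  | zero => simp [g, J]
  | succ k ih =>
    rw [List.replicate_succ, List.cons_append, J_cons, ← ih, pw_succ]
    simp [g]

/-- the segments of a part between the letters `d` -/
theorem Dk_seg (n N k : ℕ) : Dk n N (k + 1) ++ [Lt.d] = J Lt.d (List.replicate n Lt.a ::
    (List.replicate N Lt.b ++ List.replicate n Lt.a) ::
    (List.replicate k (List.replicate n Lt.b ++ List.replicate n Lt.a) ++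
      [List.replicate n Lt.b ++ List.replicate N Lt.a, List.replicate n Lt.b])) := by
  rw [J_cons, J_cons, ← seg_aux, Dk, pw_succ]
  simp [g]

/-- a power of a word without `d` inside a part -/
theorem Dk_letter {n N k : ℕ} (hn : 0 < n) (hnN : n < N) {p x q : List Lt} (hx : x ≠ [])
    (h : Dk n N (k + 1) = p ++ (pw x N ++ q)) (hd : Lt.d ∉ x) : x = [Lt.a] ∨ x = [Lt.b] := by
  have h1 : J Lt.d (List.replicate n Lt.a ::
    (List.replicate N Lt.b ++ List.replicate n Lt.a) ::
    (List.replicate k (List.replicate n Lt.b ++ List.replicate n Lt.a) ++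
      [List.replicate n Lt.b ++ List.replicate N Lt.a, List.replicate n Lt.b])) =
      p ++ (pw x N ++ (q ++ [Lt.d])) := by
    rw [← Dk_seg, h]; simp
  have hne : pw x N ≠ [] := by
    intro h'
    have := congrArg List.length h'
    rw [pw_length] at this
    have h5 := Nat.mul_pos (show 0 < N by omega) (List.length_pos_of_ne_nil hx)
    rw [this] at h5
    simp at h5
  obtain ⟨U', t, U'', p', q', e1, e2, -, -⟩ := loc Lt.d _ h1 (fun h' => hd (mem_pw h')) hne
  have ht : t ∈ (List.replicate n Lt.a ::
    (List.replicate N Lt.b ++ List.replicate n Lt.a) ::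
    (List.replicate k (List.replicate n Lt.b ++ List.replicate n Lt.a) ++
      [List.replicate n Lt.b ++ List.replicate N Lt.a, List.replicate n Lt.b])) := by
    rw [e1]; simp
  have key : ∃ i j, t = List.replicate j Lt.b ++ List.replicate i Lt.a ∧
      ((i ≤ n ∧ j ≤ N) ∨ (i ≤ N ∧ j ≤ n)) := by
    simp only [List.mem_cons, List.mem_append, List.mem_replicate, List.not_mem_nil, or_false]
      at ht
    rcases ht with ht | ht | ⟨-, ht⟩ | ht | ht
    · exact ⟨n, 0, by rw [ht]; simp, by omega⟩
    · exact ⟨n, N, ht, by omega⟩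
    · exact ⟨n, n, ht, by omega⟩
    · exact ⟨N, n, ht, by omega⟩
    · exact ⟨0, n, by rw [ht]; simp, by omega⟩
  obtain ⟨i, j, e3, hij⟩ := key
  have e4 : t = p' ++ (pw x N ++ q') := e2
  have ca : i = p'.count Lt.a + (N * x.count Lt.a + q'.count Lt.a) := by
    have := congrArg (List.count Lt.a) (e3.symm.trans e4)
    rw [List.count_append, List.count_append, List.count_append, pw_count,
      List.count_replicate_self, List.count_replicate] at this
    simpa using this
  have cb : j = p'.count Lt.b + (N * x.count Lt.b + q'.count Lt.b) := by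
    have := congrArg (List.count Lt.b) (e3.symm.trans e4)
    rw [List.count_append, List.count_append, List.count_append, pw_count,
      List.count_replicate_self, List.count_replicate] at this
    simpa using this
  have hxt : ∀ y ∈ x, y = Lt.a ∨ y = Lt.b := by
    intro y hy
    have : y ∈ t := by
      rw [e4]
      obtain ⟨M, hM⟩ : ∃ M, N = M + 1 := ⟨N - 1, by omega⟩
      rw [hM, pw_succ]
      simp [hy]
    rw [e3] at this
    rcases List.mem_append.1 this with h' | h'
    · exact Or.inr (List.mem_replicate.1 h').2
    · exact Or.inl (List.mem_replicate.1 h').2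
  have hle : x.count Lt.a ≤ 1 ∧ x.count Lt.b ≤ 1 := by
    constructor
    · by_contra h'
      have : N * 2 ≤ N * x.count Lt.a := Nat.mul_le_mul_left _ (by omega)
      omega
    · by_contra h'
      have : N * 2 ≤ N * x.count Lt.b := Nat.mul_le_mul_left _ (by omega)
      omega
  have hnot : ¬ (x.count Lt.a = 1 ∧ x.count Lt.b = 1) := by
    rintro ⟨h1, h2⟩
    rw [h1] at ca
    rw [h2] at cb
    omega
  match x, hx, hxt, hle, hnot with
  | [y], _, hxt, _, _ =>
    rcases hxt y (by simp) with rfl | rfl
    · exact Or.inl rfl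
    · exact Or.inr rfl
  | y :: z :: x, _, hxt, hle, hnot =>
    exfalso
    rcases hxt y (by simp) with rfl | rfl <;> rcases hxt z (by simp) with rfl | rfl
    · have := hle.1; simp at this
    · have h1 := hle.1; have h2 := hle.2
      simp at h1 h2
      apply hnot
      simp [h1, h2]
    · have h1 := hle.1; have h2 := hle.2
      simp at h1 h2
      apply hnot
      simp [h1, h2]
    · have := hle.2; simp at this

/-- the run of `b` -/
theorem Dk_b {n N k : ℕ} (hn : 0 < n) (hnN : n < N) {p q : List Lt}
    (h : Dk n N (k + 1) = p ++ (pw [Lt.b] N ++ q)) :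
    ∃ r, p ++ (pw [Lt.b] n ++ q) = List.replicate n Lt.a ++ Lt.d :: (List.replicate n Lt.b ++
      (Lt.a :: r)) := by
  have h1 : J Lt.d (List.replicate n Lt.a ::
    (List.replicate N Lt.b ++ List.replicate n Lt.a) ::
    (List.replicate k (List.replicate n Lt.b ++ List.replicate n Lt.a) ++
      [List.replicate n Lt.b ++ List.replicate N Lt.a, List.replicate n Lt.b])) =
      p ++ (pw [Lt.b] N ++ (q ++ [Lt.d])) := by
    rw [← Dk_seg, h]; simp
  have hpb : ∀ M, pw [Lt.b] M = List.replicate M Lt.b := by
    intro M
    induction M with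
    | zero => simp
    | succ M ih => rw [pw_succ, ih, List.replicate_succ]; rfl
  have hne : pw [Lt.b] N ≠ [] := by
    rw [hpb]
    intro h'
    have := congrArg List.length h'
    rw [List.length_replicate] at this
    simp at this
    omega
  obtain ⟨U', t, U'', p', q', e1, e2, e5, e6⟩ := loc Lt.d _ h1 (by
    rw [hpb]; simp [List.mem_replicate]) hne
  have ct : N ≤ t.count Lt.b := by
    rw [e2, List.count_append, List.count_append, hpb, List.count_replicate_self]
    omega
  have hza : ∀ M, List.count Lt.b (List.replicate M Lt.a) = 0 := by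
    intro M; rw [List.count_replicate]; rfl
  have hR : ∀ u ∈ (List.replicate k (List.replicate n Lt.b ++ List.replicate n Lt.a) ++
      [List.replicate n Lt.b ++ List.replicate N Lt.a, List.replicate n Lt.b]),
      u.count Lt.b ≤ n := by
    intro u hu
    simp only [List.mem_cons, List.mem_append, List.mem_replicate, List.not_mem_nil, or_false]
      at hu
    rcases hu with ⟨-, hu⟩ | hu | hu
    · rw [hu, List.count_append, List.count_replicate_self, hza]; omega
    · rw [hu, List.count_append, List.count_replicate_self, hza]; omega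
    · rw [hu, List.count_replicate_self]
  match U', e1 with
  | [], e1 =>
    exfalso
    simp only [List.nil_append, List.cons.injEq] at e1
    rw [← e1.1, hza] at ct
    omega
  | [u], e1 =>
    simp only [List.cons_append, List.nil_append, List.cons.injEq] at e1
    obtain ⟨rfl, rfl, e7⟩ := e1
    -- `p'` is empty
    have hp' : p' = [] := by
      cases p' with
      | nil => rfl
      | cons y p' =>
        exfalso
        have h3 : y = Lt.b := by
          obtain ⟨M, hM⟩ : ∃ M, N = M + 1 := ⟨N - 1, by omega⟩
          rw [hM, List.replicate_succ] at e2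
          simp only [List.cons_append, List.cons.injEq] at e2
          exact e2.1.symm
        have := congrArg (List.count Lt.b) e2
        rw [List.count_append, List.count_append, List.count_append, hpb, hza, h3,
          List.count_cons_self, List.count_replicate_self] at this
        omega
    subst hp'
    rw [List.nil_append, hpb, List.append_cancel_left_eq] at e2
    rw [← e2] at e6
    obtain ⟨M, hM⟩ : ∃ M, n = M + 1 := ⟨n - 1, by omega⟩
    have hq : ∃ r, q = Lt.a :: r := by
      cases q with
      | nil =>
        exfalso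
        rw [hM, List.replicate_succ] at e6
        simp at e6
      | cons y q =>
        rw [hM, List.replicate_succ] at e6
        simp only [List.cons_append, List.cons.injEq] at e6
        exact ⟨q, by rw [e6.1]⟩
    obtain ⟨r, hr⟩ := hq
    refine ⟨r, ?_⟩
    rw [e5, hr, hpb, J_cons, J_nil]
    simp
  | u :: u' :: U', e1 =>
    exfalso
    simp only [List.cons_append, List.cons.injEq] at e1
    have h3 : t ∈ (List.replicate k (List.replicate n Lt.b ++ List.replicate n Lt.a) ++
      [List.replicate n Lt.b ++ List.replicate N Lt.a, List.replicate n Lt.b]) := by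
      rw [e1.2.2]; simp
    have := hR t h3
    omega

end Pool.Agent.H344R3.FC
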