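import Pool.Agent.H344R3.FC.Code
import Pool.Agent.H344R3.FB.One
import Pool.Agent.H344R3.FB.TwoAll

/-!
# Transfer to the binary alphabet and to all alphabets with at least two letters
-/

set_option autoImplicit false

namespace Pool.Agent.H344R3.FC

open Pool.Agent.H344R3.FB

theorem pw_rot {β : Type*} (x2 x3 : List β) (k : ℕ) :
    pw (x2 ++ x3) (k + 1) = x2 ++ (pw (x3 ++ x2) k ++ x3) := by
  induction k with
  | zero => simp [pw_one]
  | succ k ih => rw [pw_succ, ih, pw_succ]; simp

theorem rot {β : Type*} {p x q p1 x1 q1 : List β} {N : ℕ} (hN : 2 ≤ N)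
    (h : p ++ (pw x N ++ q) = p1 ++ (pw x1 N ++ q1)) (hl : x.length = x1.length)
    (h1 : p.length ≤ p1.length) (h2 : p1.length ≤ p.length + x.length) {n : ℕ} (hn : 1 ≤ n) :
    p ++ (pw x n ++ q) = p1 ++ (pw x1 n ++ q1) := by
  obtain ⟨M, rfl⟩ : ∃ M, N = M + 1 + 1 := ⟨N - 2, by omega⟩
  have hp : ∃ x2, p1 = p ++ x2 ∧ pw x (M + 1 + 1) ++ q = x2 ++ (pw x1 (M + 1 + 1) ++ q1) := by
    rcases List.append_eq_append_iff.1 h with ⟨x2, h3, h4⟩ | ⟨x2, h3, h4⟩
    · exact ⟨x2, h3, h4⟩
    · have := congrArg List.length h3
      rw [List.length_append] at this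
      have hx2 : x2 = [] := List.eq_nil_of_length_eq_zero (by omega)
      subst hx2
      exact ⟨[], by simpa using h3.symm, by simpa using h4.symm⟩
  obtain ⟨x2, hp1, h3⟩ := hp
  have hx2l : x2.length ≤ x.length := by
    have := congrArg List.length hp1
    rw [List.length_append] at this
    omega
  have hx : ∃ x3, x = x2 ++ x3 := by
    rw [pw_succ, List.append_assoc] at h3
    rcases List.append_eq_append_iff.1 h3 with ⟨x3, h4, h5⟩ | ⟨x3, h4, h5⟩
    · have := congrArg List.length h4
      rw [List.length_append] at this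
      have hx3 : x3 = [] := List.eq_nil_of_length_eq_zero (by omega)
      subst hx3
      exact ⟨[], by simpa using h4.symm⟩
    · exact ⟨x3, h4⟩
  obtain ⟨x3, hx⟩ := hx
  have hx1 : x1 = x3 ++ x2 := by
    rw [hx, pw_rot, pw_succ, pw_succ] at h3
    simp only [List.append_assoc, List.append_cancel_left_eq] at h3
    have h4 : (x3 ++ x2) ++ (pw (x3 ++ x2) M ++ (x3 ++ q)) = x1 ++ (pw x1 (M + 1) ++ q1) := by
      simpa using h3
    have h5 : (x3 ++ x2).length = x1.length := by
      rw [← hl, hx]; simp only [List.length_append]; omega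
    exact (List.append_inj h4 h5).1.symm
  subst hx1
  have hq : q = x2 ++ q1 := by
    rw [hx, pw_rot, pw_succ' (x3 ++ x2) (M + 1)] at h3
    simp only [List.append_assoc, List.append_cancel_left_eq] at h3
    exact h3
  obtain ⟨k, rfl⟩ : ∃ k, n = k + 1 := ⟨n - 1, by omega⟩
  rw [hp1, hx, pw_rot, pw_succ' (x3 ++ x2) k, hq]
  simp

theorem per_is_pw {β : Type*} (r : ℕ) : ∀ (N : ℕ) (f : List β), Per r f → f.length = N * r →
    f = pw (f.take r) N := by
  intro N
  induction N with
  | zero =>
    intro f _ hf
    rw [Nat.zero_mul] at hf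
    rw [List.eq_nil_of_length_eq_zero hf]
    simp
  | succ N ih =>
    intro f hper hf
    have h1 : Per r (f.drop r) := by
      have : Per r (f.take r ++ f.drop r ++ []) := by
        rw [List.take_append_drop, List.append_nil]; exact hper
      exact this.fac
    have hf' : f.length = N * r + r := by rw [hf]; ring
    have h2 := ih (f.drop r) h1 (by rw [List.length_drop]; omega)
    rw [pw_succ]
    cases N with
    | zero =>
      simp only [pw_zero, List.append_nil]
      rw [List.take_of_length_le (by omega)]
    | succ N =>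
      have h3 : (f.drop r).take r = f.take r := by
        apply List.ext_getElem?
        intro i
        rw [List.getElem?_take, List.getElem?_take]
        split_ifs with hi
        · rw [List.getElem?_drop, Nat.add_comm]
          refine (hper i ?_).symm
          have : (N + 1) * r = N * r + r := by ring
          omega
        · rfl
      rw [h3] at h2
      rw [← h2, List.take_append_drop]

theorem lift {v : List Lt} {p x q : List Bool} {N n : ℕ} (hN : 3 ≤ N) (hn : 1 ≤ n) (hx : x ≠ [])
    (h : H v = p ++ (pw x N ++ q)) : ∃ A y B : List Lt, v = A ++ (pw y N ++ B) ∧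
      H (A ++ (pw y n ++ B)) = p ++ (pw x n ++ q) := by
  obtain ⟨r, hr⟩ := root_len hN hx h
  have hxl : 0 < x.length := List.length_pos_of_ne_nil hx
  have hr0 : 0 < r := by
    rcases Nat.eq_zero_or_pos r with h' | h'
    · rw [h', Nat.mul_zero] at hr; omega
    · exact h'
  have hlen : 13 * v.length = p.length + (N * x.length + q.length) := by
    rw [← H_len, h, List.length_append, List.length_append, pw_length]
  have hNr : N * x.length = 13 * (N * r) := by rw [hr]; ring
  have hNr3 : 3 * r ≤ N * r := Nat.mul_le_mul_right _ hN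
  set i := p.length / 13 with hi
  set j := p.length % 13 with hj
  have hij : 13 * i + j = p.length := Nat.div_add_mod _ _
  have hjl : j < 13 := Nat.mod_lt _ (by omega)
  -- the start of the run
  obtain ⟨i1, hi1⟩ : ∃ i1, (j ≤ 6 ∧ i1 = i) ∨ (7 ≤ j ∧ i1 = i + 1) := by
    rcases Nat.lt_or_ge 6 j with h' | h'
    · exact ⟨i + 1, Or.inr ⟨h', rfl⟩⟩
    · exact ⟨i, Or.inl ⟨h', rfl⟩⟩
  have hvl : i1 + N * r ≤ v.length := by omega
  set f := (v.drop i1).take (N * r) with hf
  have hfl : f.length = N * r := by rw [hf, List.length_take, List.length_drop]; omega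
  have hfk : ∀ k, k < N * r → f[k]? = v[i1 + k]? := by
    intro k hk
    rw [hf, List.getElem?_take_of_lt hk, List.getElem?_drop]
  have hper : Per r f := by
    intro k hk
    rw [hfl] at hk
    rw [hfk k (by omega), hfk (k + r) hk]
    obtain ⟨y1, hy1⟩ : ∃ y, v[i1 + k]? = some y := ⟨_, List.getElem?_eq_getElem (by omega)⟩
    obtain ⟨y2, hy2⟩ : ∃ y, v[i1 + (k + r)]? = some y :=
      ⟨_, List.getElem?_eq_getElem (by omega)⟩
    rw [hy1, hy2]
    congr 1
    have key : ∀ s, s < 13 → p.length ≤ 13 * (i1 + k) + s →
        13 * (i1 + k) + s + x.length < p.length + N * x.length → (cd y1)[s]? = (cd y2)[s]? := by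
      intro s hs hs1 hs2
      rw [← H_pos' hy1 hs, ← H_pos' hy2 hs, pow_period h _ hs1 hs2]
      congr 1
      omega
    rcases hi1 with ⟨h1, h2⟩ | ⟨h1, h2⟩
    · refine cd_suf fun s hs1 hs2 => key s hs2 (by omega) (by omega)
    · refine cd_pre fun s hs1 => key s (by omega) (by omega) (by omega)
  have hpw := per_is_pw r N f hper hfl
  have hv : v = v.take i1 ++ (pw (f.take r) N ++ v.drop (i1 + N * r)) := by
    rw [← hpw, hf, Nat.add_comm i1, ← List.drop_drop, List.drop_drop, Nat.add_comm]
    conv_lhs => rw [← List.take_append_drop i1 v]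
    congr 1
    conv_lhs => rw [← List.take_append_drop (N * r) (v.drop i1)]
    rw [List.drop_drop]
  refine ⟨v.take i1, f.take r, v.drop (i1 + N * r), hv, ?_⟩
  have hHpw : ∀ (y : List Lt) (k : ℕ), H (pw y k) = pw (H y) k := by
    intro y k
    induction k with
    | zero => simp
    | succ k ih => rw [pw_succ, H_append, ih, pw_succ]
  have h' := h
  rw [hv, H_append, H_append, hHpw] at h'
  rw [H_append, H_append, hHpw]
  have hAl : (H (v.take i1)).length = 13 * i1 := by
    rw [H_len, List.length_take, min_eq_left (by omega)]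
  have hyl : (H (f.take r)).length = x.length := by
    rw [H_len, List.length_take, hfl, min_eq_left (by omega), hr]
  rcases hi1 with ⟨h1, h2⟩ | ⟨h1, h2⟩
  · exact rot (by omega) h' hyl (by rw [hAl]; omega) (by rw [hAl, hyl]; omega) hn
  · exact (rot (by omega) h'.symm hyl.symm (by rw [hAl]; omega) (by rw [hAl]; omega) hn).symm

theorem H_inj : ∀ {v w : List Lt}, H v = H w → v = w := by
  intro v
  induction v with
  | nil =>
    intro w h
    have := congrArg List.length h
    rw [H_len, H_len] at this
    have : w.length = 0 := by rw [List.length_nil] at this; omega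
    exact (List.eq_nil_of_length_eq_zero this).symm
  | cons y v ih =>
    intro w h
    cases w with
    | nil =>
      have := congrArg List.length h
      rw [H_len, H_len] at this
      simp at this
    | cons z w =>
      rw [H_cons, H_cons] at h
      obtain ⟨h1, h2⟩ := List.append_inj h (by rw [cd_len, cd_len])
      rw [cd_pre (x := y) (y := z) (fun s _ => by rw [h1]), ih h2]

theorem lang_H {n m : ℕ} (hn : 1 ≤ n) (hnm : 3 ≤ n + m) (v w : List Lt) :
    H v ∈ Lang n m (H w) ↔ v ∈ Lang n m w := by
  have hHpw : ∀ (y : List Lt) (k : ℕ), H (pw y k) = pw (H y) k := by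
    intro y k
    induction k with
    | zero => simp
    | succ k ih => rw [pw_succ, H_append, ih, pw_succ]
  constructor
  · intro h
    have h' : Relation.ReflTransGen (Step n m) (H w) (H v) := h
    have key : ∀ u, Relation.ReflTransGen (Step n m) (H w) u → ∀ v, u = H v →
        v ∈ Lang n m w := by
      intro u hu
      induction hu with
      | refl =>
        intro v hv
        rw [H_inj hv]
        exact lang_refl _ _ _
      | tail _ h2 ih =>
        intro v hv
        obtain ⟨p, x, q, h3, h4⟩ := h2
        by_cases hx : x = []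
        · subst hx
          refine ih v ?_
          rw [h3, ← hv, h4]
          simp
        · rw [hv, List.append_assoc] at h4
          obtain ⟨A, y, B, h5, h6⟩ := lift hnm hn hx h4
          refine lang_trans (ih (A ++ (pw y n ++ B)) ?_) (lang_step ⟨A, y, B, by simp, ?_⟩)
          · rw [h3, h6, List.append_assoc]
          · rw [h5]; simp
    exact key _ h' v rfl
  · intro h
    have h' : Relation.ReflTransGen (Step n m) w v := h
    show Relation.ReflTransGen (Step n m) _ _
    induction h' with
    | refl => exact Relation.ReflTransGen.refl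
    | tail _ h2 ih =>
      refine (ih (by assumption)).tail ?_
      obtain ⟨p, x, q, h3, h4⟩ := h2
      exact ⟨H p, H x, H q, by rw [h3]; simp [H_append, hHpw], by rw [h4]; simp [H_append, hHpw]⟩

theorem regular_preimage {α β : Type*} (φ : α → List β) {L : Language β} (hL : L.IsRegular) :
    Language.IsRegular ({v | v.flatMap φ ∈ L} : Language α) := by
  obtain ⟨σ, hσ, M, hM⟩ := hL
  refine ⟨σ, hσ, ⟨fun s y => M.evalFrom s (φ y), M.start, M.accept⟩, ?_⟩
  have key : ∀ (v : List α) (s : σ),
      (DFA.mk (fun s y => M.evalFrom s (φ y)) M.start M.accept : DFA α σ).evalFrom s v =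
        M.evalFrom s (v.flatMap φ) := by
    intro v
    induction v with
    | nil => intro s; rfl
    | cons y v ih =>
      intro s
      rw [List.flatMap_cons, DFA.evalFrom_of_append, ← ih]
      rfl
  ext v
  rw [DFA.mem_accepts]
  show (DFA.mk (fun s y => M.evalFrom s (φ y)) M.start M.accept : DFA α σ).evalFrom M.start v ∈
    M.accept ↔ v.flatMap φ ∈ L
  rw [key, ← hM, DFA.mem_accepts]
  rfl

theorem lang_map_iff {α β : Type*} {f : α → β} (hf : Function.Injective f) {n m : ℕ}
    (hn : 1 ≤ n) (v w : List α) : v.map f ∈ Lang n m (w.map f) ↔ v ∈ Lang n m w := by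
  constructor
  · intro h
    have h' : Relation.ReflTransGen (Step n m) (w.map f) (v.map f) := h
    have hinj : Function.Injective (List.map f) := List.map_injective_iff.2 hf
    have key : ∀ u, Relation.ReflTransGen (Step n m) (w.map f) u → ∀ v, u = v.map f →
        v ∈ Lang n m w := by
      intro u hu
      induction hu with
      | refl =>
        intro v hv
        rw [hinj hv]
        exact lang_refl _ _ _
      | tail _ h2 ih =>
        intro v hv
        obtain ⟨p, x, q, h3, h4⟩ := h2
        rw [hv, List.append_assoc] at h4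
        obtain ⟨p', v1, e1, e2, e3⟩ := List.map_eq_append_iff.1 h4
        obtain ⟨y', q', e4, e5, e6⟩ := List.map_eq_append_iff.1 e3
        obtain ⟨k, hk⟩ : ∃ k, n + m = k + 1 := ⟨n + m - 1, by omega⟩
        have e7 := e5
        rw [hk, pw_succ] at e7
        obtain ⟨x', y'', e8, e9, e10⟩ := List.map_eq_append_iff.1 e7
        have e11 : y' = pw x' (n + m) := by
          apply hinj
          rw [e5, pw_map, e9]
        refine lang_trans (ih (p' ++ pw x' n ++ q') ?_) (lang_step ⟨p', x', q', rfl, ?_⟩)
        · rw [h3, List.map_append, List.map_append, pw_map, e2, e9, e6]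
        · rw [e1, e4, e11]; simp
    exact key _ h' v rfl
  · exact lang_map f

/-- For `n ≥ 2` and `m ≥ 1` there is a non-regular language over every alphabet with two
letters. -/
theorem two_letters {α : Type*} (a b : α) (hab : a ≠ b) (n m : ℕ) (hn : 2 ≤ n) (hm : 1 ≤ m) :
    ∃ w : List α, (∀ c ∈ w, c = a ∨ c = b) ∧ ¬ (Lang n m w).IsRegular := by
  set f : Bool → α := fun x => if x then b else a with hf
  have hfi : Function.Injective f := by
    intro x y hxy
    cases x <;> cases y
    · rfl
    · exact absurd hxy hab
    · exact absurd hxy.symm hab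
    · rfl
  refine ⟨(H (ww n m)).map f, ?_, ?_⟩
  · intro c hc
    obtain ⟨x, -, rfl⟩ := List.mem_map.1 hc
    cases x
    · left; rfl
    · right; rfl
  · intro h
    refine ww_not_regular n m hn hm ?_
    have h1 := regular_preimage (fun y : Lt => (cd y).map f) h
    have e : ({v | v.flatMap (fun y : Lt => (cd y).map f) ∈ Lang n m ((H (ww n m)).map f)} :
        Language Lt) = Lang n m (ww n m) := by
      ext v
      show v.flatMap (fun y : Lt => (cd y).map f) ∈ Lang n m ((H (ww n m)).map f) ↔ _
      have e1 : v.flatMap (fun y : Lt => (cd y).map f) = (H v).map f := by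
        rw [H, List.map_flatMap]
      rw [e1, lang_map_iff hfi (by omega), lang_H (by omega) (by omega)]
      exact Iff.rfl
    rw [e] at h1
    exact h1

end Pool.Agent.H344R3.FC
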