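import Pool.Agent.H344R3.FC.OneStep

/-!
# A non-regular language for all `n ≥ 2` and `m ≥ 1`
-/

set_option autoImplicit false

namespace Pool.Agent.H344R3.FC

open Pool.Agent.H344R3.FB

theorem minimal {n m K : ℕ} (hn : 2 ≤ n) (hm : 1 ≤ m) {V : List Lt} (h1 : I1 (n + m) V)
    (h2 : I2 (n + m) V) (h : vs n (n + m) (tms K) ∈ Lang n m V) :
    V = vs n (n + m) (tms K) := by
  have h' : Relation.ReflTransGen (Step n m) V (vs n (n + m) (tms K)) := h
  clear h
  induction h' using Relation.ReflTransGen.head_induction_on with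
  | refl => rfl
  | head hs _ ih =>
    have h3 := ih (h1.step hn hs) (h2.step hn hs)
    subst h3
    exact one_step hn hm h1 h2 hs

section reach

variable {α : Type*}

theorem lang_refl (n m : ℕ) (w : List α) : w ∈ Lang n m w := Relation.ReflTransGen.refl

theorem lang_step {n m : ℕ} {v w : List α} (h : Step n m w v) : v ∈ Lang n m w :=
  Relation.ReflTransGen.single h

theorem lang_append {n m : ℕ} {v1 w1 v2 w2 : List α} (h1 : v1 ∈ Lang n m w1)
    (h2 : v2 ∈ Lang n m w2) : v1 ++ v2 ∈ Lang n m (w1 ++ w2) := by
  have h3 := lang_context [] w2 h1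
  have h4 := lang_context v1 [] h2
  simp only [List.nil_append, List.append_nil] at h3 h4
  exact lang_trans h3 h4

theorem lang_pw {n m : ℕ} (x : List α) (k : ℕ) : pw x (n + m * k) ∈ Lang n m (pw x n) := by
  induction k with
  | zero => exact lang_refl _ _ _
  | succ k ih =>
    refine lang_trans ih (lang_step ⟨[], x, pw x (m * k), ?_, ?_⟩)
    · rw [pw_add]; simp
    · rw [show n + m * (k + 1) = n + m + m * k by ring, pw_add]; simp

theorem lang_J {n m : ℕ} (c : α) (w : List α) (U : List (List α)) (h : ∀ u ∈ U, u ++ [c] ∈ Lang n m w) :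
    J c U ∈ Lang n m (pw w U.length) := by
  induction U with
  | nil => exact lang_refl _ _ _
  | cons u U ih =>
    have e : J c (u :: U) = (u ++ [c]) ++ J c U := by rw [J_cons]; simp
    rw [e, List.length_cons, pw_succ]
    exact lang_append (h u (by simp)) (ih fun v hv => h v (by simp [hv]))

end reach

theorem lang_rs {n m : ℕ} {v w : List Lt} (h : v ∈ Lang n m w) : rs v ∈ Lang n m (rs w) := by
  have h' : Relation.ReflTransGen (Step n m) w v := h
  show Relation.ReflTransGen (Step n m) _ _
  induction h' with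
  | refl => exact Relation.ReflTransGen.refl
  | tail _ h2 ih => exact (ih (by assumption)).tail (rs_step h2)

theorem pw_letter {α : Type*} (y : α) (k : ℕ) : pw [y] k = List.replicate k y := by
  induction k with
  | zero => simp
  | succ k ih => rw [pw_succ, ih, List.replicate_succ]; rfl

/-- first small word -/
def PP (n N : ℕ) : List Lt := pw (g n n) n ++ g N n
/-- second small word -/
def QQ (n N : ℕ) : List Lt := g n N ++ pw (g n n) n

theorem pw_succ' {α : Type*} (x : List α) (k : ℕ) : pw x (k + 1) = pw x k ++ x := by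
  rw [pw_add, pw_one]

theorem rs_PP (n N : ℕ) : rs (PP n N) = QQ n N := by
  rw [PP, rs_append, rs_pw, rs_g, rs_g, QQ]

theorem raise (n m k : ℕ) : Dk n (n + m) k ∈ Lang n m (pw (g n n) (k + 1) ++ g (n + m) n) := by
  refine lang_step ⟨List.replicate n Lt.a ++ [Lt.d], [Lt.b], pw (g n n) k ++ g (n + m) n, ?_, ?_⟩
  · rw [pw_letter, pw_succ]; simp [g]
  · rw [pw_letter, Dk]; simp [g]

theorem PP_Dk (n m : ℕ) (hn : 1 ≤ n) (hm : 1 ≤ m) : Dk n (n + m) (n - 1) ∈ Lang n m (PP n (n + m)) ∧
    Dk n (n + m) (n + m - 1) ∈ Lang n m (PP n (n + m)) := by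
  constructor
  · have := raise n m (n - 1)
    rw [show n - 1 + 1 = n by omega] at this
    exact this
  · have := raise n m (n + m - 1)
    rw [show n + m - 1 + 1 = n + m by omega] at this
    refine lang_trans (lang_step ⟨[], g n n, g (n + m) n, ?_, ?_⟩) this
    · simp [PP]
    · simp

theorem QQ_Dk (n m : ℕ) (hn : 1 ≤ n) (hm : 1 ≤ m) : Dk n (n + m) (n - 1) ∈ Lang n m (QQ n (n + m)) ∧
    Dk n (n + m) (n + m - 1) ∈ Lang n m (QQ n (n + m)) := by
  have h := PP_Dk n m hn hm
  have h1 := lang_rs h.1
  have h2 := lang_rs h.2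
  rw [rs_Dk, rs_PP] at h1 h2
  exact ⟨h1, h2⟩

/-- the block with two parts -/
def BB (X : List Lt) : List Lt := X ++ Lt.e :: (X ++ [Lt.h])

theorem BB_bl {n m : ℕ} {X : List Lt} (h1 : Dk n (n + m) (n - 1) ∈ Lang n m X)
    (h2 : Dk n (n + m) (n + m - 1) ∈ Lang n m X) (y : Bool) :
    bl n (n + m) y ++ [Lt.h] ∈ Lang n m (BB X) := by
  cases y
  · have := lang_append h1 (lang_append (lang_refl n m [Lt.e]) (lang_append h2
      (lang_refl n m [Lt.h])))
    simpa [BB, bl] using this
  · have := lang_append h2 (lang_append (lang_refl n m [Lt.e]) (lang_append h1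
      (lang_refl n m [Lt.h])))
    simpa [BB, bl] using this

theorem vs_mem {n m : ℕ} {X : List Lt} (h1 : Dk n (n + m) (n - 1) ∈ Lang n m X)
    (h2 : Dk n (n + m) (n + m - 1) ∈ Lang n m X) (k : ℕ) :
    vs n (n + m) (tms (n + m * k)) ∈ Lang n m (pw (BB X) n) := by
  refine lang_trans (lang_pw (BB X) k) ?_
  have := lang_J (n := n) (m := m) Lt.h (BB X) ((tms (n + m * k)).map (bl n (n + m))) (by
    intro u hu
    obtain ⟨y, -, rfl⟩ := List.mem_map.1 hu
    exact BB_bl h1 h2 y)
  rw [show ((tms (n + m * k)).map (bl n (n + m))).length = n + m * k by simp [tms]] at this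
  exact this

/-- the word with the non-regular language -/
def ww (n m : ℕ) : List Lt :=
  J Lt.c (pw (BB (PP n (n + m))) n :: List.replicate (n - 1) (pw (BB (QQ n (n + m))) n))

theorem vs_pow (n m k : ℕ) (hn : 1 ≤ n) (hm : 1 ≤ m) :
    J Lt.c (List.replicate (n + m) (vs n (n + m) (tms (n + m * k)))) ∈ Lang n m (ww n m) := by
  have h1 := vs_mem (PP_Dk n m hn hm).1 (PP_Dk n m hn hm).2 k
  have h2 := vs_mem (QQ_Dk n m hn hm).1 (QQ_Dk n m hn hm).2 k
  set v := vs n (n + m) (tms (n + m * k)) with hv
  rw [J_replicate]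
  have h3 : pw (v ++ [Lt.c]) n ∈ Lang n m (ww n m) := by
    have e1 : pw (v ++ [Lt.c]) n = (v ++ [Lt.c]) ++ J Lt.c (List.replicate (n - 1) v) := by
      rw [J_replicate, ← pw_succ, show n - 1 + 1 = n by omega]
    have e2 : ww n m = (pw (BB (PP n (n + m))) n ++ [Lt.c]) ++
        pw (pw (BB (QQ n (n + m))) n ++ [Lt.c]) (n - 1) := by
      rw [ww, J_cons, J_replicate]; simp
    rw [e1, e2]
    refine lang_append (lang_append h1 (lang_refl _ _ _)) ?_
    have := lang_J (n := n) (m := m) Lt.c (pw (BB (QQ n (n + m))) n ++ [Lt.c])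
      (List.replicate (n - 1) v) (by
        intro u hu
        rw [(List.mem_replicate.1 hu).2]
        exact lang_append h2 (lang_refl _ _ _))
    rw [List.length_replicate] at this
    exact this
  exact lang_trans h3 (lang_step ⟨[], v ++ [Lt.c], [], by simp, by simp⟩)

/-- the invariant of the words of the language -/
def KK (n m : ℕ) (v : List Lt) : Prop :=
  (∃ u U, U.length + 1 = n ∧ Lt.c ∉ u ∧ (∀ t ∈ U, Lt.c ∉ t) ∧ v = J Lt.c (u :: U) ∧
    I1 (n + m) u ∧ ∀ t ∈ U, I2 (n + m) t) ∨
  (∃ u U V, U.length + 1 = n + m ∧ Lt.c ∉ u ∧ (∀ t ∈ U, Lt.c ∉ t) ∧ v = J Lt.c (u :: U) ∧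
    I1 (n + m) V ∧ I2 (n + m) V ∧ ∀ t ∈ U, t ∈ Lang n m V) ∨
  n + m < v.count Lt.c

theorem step_not_mem {α : Type*} {n m : ℕ} (hn : 0 < n) {c : α} {t t' : List α}
    (h : Step n m t t') (ht : c ∉ t) : c ∉ t' := by
  obtain ⟨p, x, q, rfl, rfl⟩ := h
  simp only [List.mem_append, not_or] at ht ⊢
  refine ⟨⟨ht.1.1, fun h' => ht.1.2 ?_⟩, ht.2⟩
  have := mem_pw h'
  obtain ⟨k, rfl⟩ : ∃ k, n = k + 1 := ⟨n - 1, by omega⟩
  rw [pw_succ]
  exact List.mem_append.2 (Or.inl this)

theorem J_last {α : Type*} (c : α) (u : List α) (U : List (List α)) :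
    (J c (u :: U)).getLast? = some c := by
  induction U generalizing u with
  | nil => simp [J]
  | cons v U ih =>
    have := ih v
    rw [J_cons] at this
    rw [J_cons, J_cons, List.getLast?_append, List.getLast?_cons, this]
    simp

theorem KK_step {n m : ℕ} (hn : 2 ≤ n) (hm : 1 ≤ m) {v v' : List Lt} (h : KK n m v)
    (hs : Step n m v v') : KK n m v' := by
  obtain ⟨p, x, q, hv, hv'⟩ := hs
  by_cases hx : x = []
  · subst hx
    have : v' = v := by rw [hv, hv']; simp
    rw [this]; exact h
  by_cases hc : Lt.c ∈ x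
  · have hcx : 0 < x.count Lt.c := List.count_pos_iff.2 hc
    have c1 : v.count Lt.c = p.count Lt.c + n * x.count Lt.c + q.count Lt.c := by
      rw [hv, List.count_append, List.count_append, pw_count]
    have c2 : v'.count Lt.c = p.count Lt.c + (n + m) * x.count Lt.c + q.count Lt.c := by
      rw [hv', List.count_append, List.count_append, pw_count]
    have c3 : (n + m) * x.count Lt.c = n * x.count Lt.c + m * x.count Lt.c := by ring
    have c4 : 0 < m * x.count Lt.c := Nat.mul_pos hm hcx
    rcases h with ⟨u, U, hl, hu, hU, hJ, hI1, hI2⟩ | ⟨u, U, V, hl, hu, hU, hJ, -⟩ | h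
    · -- the decisive case
      right; left
      have c5 : v.count Lt.c = n := by
        rw [hJ, J_count, List.length_cons, hl]
        intro t ht
        rcases List.mem_cons.1 ht with rfl | ht
        · exact hu
        · exact hU t ht
      have c6 : x.count Lt.c = 1 := by
        by_contra h'
        have : n * 2 ≤ n * x.count Lt.c := Nat.mul_le_mul_left _ (by omega)
        omega
      rw [c6] at c1
      have hp : Lt.c ∉ p := List.count_eq_zero.1 (by omega)
      have hq0 : Lt.c ∉ q := List.count_eq_zero.1 (by omega)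
      obtain ⟨α, β, hxab⟩ := List.append_of_mem hc
      have hα : Lt.c ∉ α := by
        intro h'
        have := List.count_pos_iff.2 h'
        rw [hxab, List.count_append, List.count_cons_self] at c6
        omega
      have hβ : Lt.c ∉ β := by
        intro h'
        have := List.count_pos_iff.2 h'
        rw [hxab, List.count_append, List.count_cons_self] at c6
        omega
      have hlast : v.getLast? = some Lt.c := by rw [hJ]; exact J_last _ _ _
      have hq : q = [] := by
        by_contra h'
        rw [hv, List.getLast?_append_of_ne_nil _ h'] at hlast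
        exact hq0 (List.mem_of_getLast? hlast)
      subst hq
      have hβ' : β = [] := by
        by_contra h'
        rw [hv, List.append_nil, show n = (n - 1) + 1 by omega, pw_succ', hxab] at hlast
        have e : p ++ (pw (α ++ Lt.c :: β) (n - 1) ++ (α ++ Lt.c :: β)) =
            (p ++ (pw (α ++ Lt.c :: β) (n - 1) ++ (α ++ [Lt.c]))) ++ β := by simp
        rw [e, List.getLast?_append_of_ne_nil _ h'] at hlast
        exact hβ (List.mem_of_getLast? hlast)
      subst hβ'
      subst hxab
      have e1 : ∀ k, p ++ pw (α ++ [Lt.c]) (k + 1) ++ [] =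
          J Lt.c ((p ++ α) :: List.replicate k α) := by
        intro k
        rw [J_cons, J_replicate, pw_succ]; simp
      have e2 : u :: U = (p ++ α) :: List.replicate (n - 1) α := by
        refine J_inj Lt.c ?_ ?_ ?_
        · intro t ht
          rcases List.mem_cons.1 ht with rfl | ht
          · exact hu
          · exact hU t ht
        · intro t ht
          rcases List.mem_cons.1 ht with rfl | ht
          · simp [hp, hα]
          · rw [(List.mem_replicate.1 ht).2]; exact hα
        · rw [← hJ, hv, ← e1, show n - 1 + 1 = n by omega]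
      simp only [List.cons.injEq] at e2
      obtain ⟨e3, e4⟩ := e2
      refine ⟨p ++ α, List.replicate (n + m - 1) α, α, ?_, ?_, ?_, ?_, ?_, ?_, ?_⟩
      · rw [List.length_replicate]; omega
      · simp [hp, hα]
      · intro t ht
        rw [(List.mem_replicate.1 ht).2]; exact hα
      · rw [hv', ← e1, show n + m - 1 + 1 = n + m by omega]
      · rw [e3] at hI1
        exact hI1.right
      · refine hI2 α ?_
        rw [e4]
        exact List.mem_replicate.2 ⟨by omega, rfl⟩
      · intro t ht
        rw [(List.mem_replicate.1 ht).2]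
        exact lang_refl _ _ _
    · right; right
      have c5 : v.count Lt.c = n + m := by
        rw [hJ, J_count, List.length_cons, hl]
        intro t ht
        rcases List.mem_cons.1 ht with rfl | ht
        · exact hu
        · exact hU t ht
      omega
    · right; right
      omega
  · -- a step inside one block
    rcases h with ⟨u, U, hl, hu, hU, hJ, hI1, hI2⟩ | ⟨u, U, V, hl, hu, hU, hJ, hV1, hV2, hV⟩ | h
    · left
      obtain ⟨U', t, t', U'', e1, e2, e3⟩ := step_block (m := m) (by omega) (hJ.symm.trans hv) hc hx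
      rw [← hv'] at e3
      cases U' with
      | nil =>
        simp only [List.nil_append, List.cons.injEq] at e1
        obtain ⟨rfl, rfl⟩ := e1
        exact ⟨t', U, hl, step_not_mem (by omega) e2 hu, hU, e3, hI1.step hn e2, hI2⟩
      | cons u' U' =>
        simp only [List.cons_append, List.cons.injEq] at e1
        obtain ⟨rfl, rfl⟩ := e1
        refine ⟨u, U' ++ t' :: U'', ?_, hu, ?_, e3, hI1, ?_⟩
        · rw [← hl]; simp
        · intro s hs
          rcases List.mem_append.1 hs with hs | hs
          · exact hU s (by simp [hs])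
          · rcases List.mem_cons.1 hs with rfl | hs
            · exact step_not_mem (by omega) e2 (hU t (by simp))
            · exact hU s (by simp [hs])
        · intro s hs
          rcases List.mem_append.1 hs with hs | hs
          · exact hI2 s (by simp [hs])
          · rcases List.mem_cons.1 hs with rfl | hs
            · exact (hI2 t (by simp)).step hn e2
            · exact hI2 s (by simp [hs])
    · right; left
      obtain ⟨U', t, t', U'', e1, e2, e3⟩ := step_block (m := m) (by omega) (hJ.symm.trans hv) hc hx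
      rw [← hv'] at e3
      cases U' with
      | nil =>
        simp only [List.nil_append, List.cons.injEq] at e1
        obtain ⟨rfl, rfl⟩ := e1
        exact ⟨t', U, V, hl, step_not_mem (by omega) e2 hu, hU, e3, hV1, hV2, hV⟩
      | cons u' U' =>
        simp only [List.cons_append, List.cons.injEq] at e1
        obtain ⟨rfl, rfl⟩ := e1
        refine ⟨u, U' ++ t' :: U'', V, ?_, hu, ?_, e3, hV1, hV2, ?_⟩
        · rw [← hl]; simp
        · intro s hs
          rcases List.mem_append.1 hs with hs | hs
          · exact hU s (by simp [hs])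
          · rcases List.mem_cons.1 hs with rfl | hs
            · exact step_not_mem (by omega) e2 (hU t (by simp))
            · exact hU s (by simp [hs])
        · intro s hs
          rcases List.mem_append.1 hs with hs | hs
          · exact hV s (by simp [hs])
          · rcases List.mem_cons.1 hs with rfl | hs
            · exact lang_trans (hV t (by simp)) (lang_step e2)
            · exact hV s (by simp [hs])
    · right; right
      have c1 : v'.count Lt.c = v.count Lt.c := by
        rw [hv, hv', List.count_append, List.count_append, List.count_append, List.count_append,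
          pw_count, pw_count, List.count_eq_zero_of_not_mem hc]
        simp
      omega

theorem vs_not_c (n N : ℕ) (s : List Bool) : Lt.c ∉ vs n N s := by
  intro h
  rw [vs, J, List.mem_flatMap] at h
  obtain ⟨u, hu, h⟩ := h
  obtain ⟨y, -, rfl⟩ := List.mem_map.1 hu
  rcases List.mem_append.1 h with h | h
  · exact bl_not_c n N y h
  · simp at h

theorem vs_count (n N K : ℕ) : (vs n N (tms K)).count Lt.h = K := by
  rw [vs, J_count]
  · simp [tms]
  · intro u hu
    obtain ⟨y, -, rfl⟩ := List.mem_map.1 hu
    exact bl_not_h n N y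

theorem run_g (N n : ℕ) : run N St.start (g n N) = some (St.cnt N) := by
  rw [g, run_append, run_a, Option.bind_some, run_cons]
  simp only [tr, Option.bind_some]
  rw [run_b N N 0 (by omega)]
  simp

theorem run_ok (N : ℕ) : ∀ v : List Lt, Lt.e ∉ v → Lt.h ∉ v → Lt.c ∉ v →
    run N (St.cnt N) v = some (St.cnt N) := by
  intro v
  induction v with
  | nil => intro _ _ _; rfl
  | cons y v ih =>
    intro h1 h2 h3
    simp only [List.mem_cons, not_or] at h1 h2 h3
    rw [run_cons]
    have : tr N (St.cnt N) y = some (St.cnt N) := by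
      cases y
      · simp [tr]
      · simp [tr]
      · simp [tr]
      · exact absurd rfl h1.1
      · exact absurd rfl h2.1
      · exact absurd rfl h3.1
    rw [this, Option.bind_some]
    exact ih h1.2 h2.2 h3.2

theorem g_not (i j : ℕ) : Lt.e ∉ g i j ∧ Lt.h ∉ g i j ∧ Lt.c ∉ g i j := by
  simp [g, List.mem_replicate]

theorem run_QQ (n m : ℕ) : run (n + m) St.start (QQ n (n + m)) = some (St.cnt (n + m)) := by
  rw [QQ, run_append, run_g _ _, Option.bind_some]
  refine run_ok _ _ ?_ ?_ ?_
  · exact fun h => (g_not n n).1 (mem_pw h)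
  · exact fun h => (g_not n n).2.1 (mem_pw h)
  · exact fun h => (g_not n n).2.2 (mem_pw h)

theorem run_sep (N : ℕ) : run N (St.cnt N) [Lt.e] = some St.start ∧
    run N (St.cnt N) [Lt.h] = some St.start := by
  constructor <;> simp [run_cons, run_nil, tr]

theorem run_pow_fix (N : ℕ) (s : St) (x : List Lt) (h : run N s x = some s) (k : ℕ) :
    run N s (pw x k) = some s := by
  induction k with
  | zero => rfl
  | succ k ih => rw [pw_succ, run_append, h, Option.bind_some, ih]

theorem I2_W (n m : ℕ) : I2 (n + m) (pw (BB (QQ n (n + m))) n) := by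
  refine ⟨St.start, run_pow_fix _ _ _ ?_ _⟩
  rw [BB, run_append, run_QQ, Option.bind_some,
    show Lt.e :: (QQ n (n + m) ++ [Lt.h]) = [Lt.e] ++ (QQ n (n + m) ++ [Lt.h]) from rfl,
    run_append, (run_sep _).1, Option.bind_some, run_append, run_QQ, Option.bind_some,
    (run_sep _).2]

theorem I1_W (n m : ℕ) : I1 (n + m) (pw (BB (PP n (n + m))) n) := by
  refine ⟨St.cnt (n + m), ?_⟩
  rw [rs_pw]
  refine run_pow_fix _ _ _ ?_ _
  have e : rs (BB (PP n (n + m))) =
      [Lt.h] ++ (QQ n (n + m) ++ ([Lt.e] ++ QQ n (n + m))) := by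
    rw [BB, rs_append, rs_cons, rs_append, rs_PP]
    simp [rs, sw]
  rw [e, run_append, (run_sep _).2, Option.bind_some, run_append, run_QQ, Option.bind_some,
    run_append, (run_sep _).1, Option.bind_some, run_QQ]

theorem BB_not_c (n N : ℕ) (k : ℕ) : Lt.c ∉ pw (BB (PP n N)) k ∧ Lt.c ∉ pw (BB (QQ n N)) k := by
  have h1 : Lt.c ∉ PP n N := by
    intro h
    rcases List.mem_append.1 h with h | h
    · exact (g_not _ _).2.2 (mem_pw h)
    · exact (g_not _ _).2.2 h
  have h2 : Lt.c ∉ QQ n N := by
    intro h
    rcases List.mem_append.1 h with h | h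
    · exact (g_not _ _).2.2 h
    · exact (g_not _ _).2.2 (mem_pw h)
  constructor
  · intro h
    have := mem_pw h
    simp [BB, h1] at this
  · intro h
    have := mem_pw h
    simp [BB, h2] at this

theorem KK_ww (n m : ℕ) (hn : 2 ≤ n) : KK n m (ww n m) := by
  left
  refine ⟨_, _, ?_, (BB_not_c n (n + m) n).1, ?_, rfl, I1_W n m, ?_⟩
  · rw [List.length_replicate]; omega
  · intro t ht
    rw [(List.mem_replicate.1 ht).2]
    exact (BB_not_c n (n + m) n).2
  · intro t ht
    rw [(List.mem_replicate.1 ht).2]
    exact I2_W n m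

theorem KK_lang {n m : ℕ} (hn : 2 ≤ n) (hm : 1 ≤ m) {v : List Lt} (h : v ∈ Lang n m (ww n m)) :
    KK n m v := by
  have h' : Relation.ReflTransGen (Step n m) (ww n m) v := h
  induction h' with
  | refl => exact KK_ww n m hn
  | tail _ h2 ih => exact KK_step hn hm (ih (by assumption)) h2

theorem not_mem {n m K K' : ℕ} (hn : 2 ≤ n) (hm : 1 ≤ m) (hK : K ≠ K') :
    J Lt.c (List.replicate (n + m - 1) (vs n (n + m) (tms K)) ++ [vs n (n + m) (tms K')]) ∉
      Lang n m (ww n m) := by
  intro h
  have hU : ∀ t ∈ List.replicate (n + m - 1) (vs n (n + m) (tms K)) ++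
      [vs n (n + m) (tms K')], Lt.c ∉ t := by
    intro t ht
    rcases List.mem_append.1 ht with ht | ht
    · rw [(List.mem_replicate.1 ht).2]; exact vs_not_c _ _ _
    · rw [List.mem_singleton.1 ht]; exact vs_not_c _ _ _
  have hcount := J_count Lt.c _ hU
  rw [List.length_append, List.length_replicate, List.length_cons, List.length_nil] at hcount
  rcases KK_lang hn hm h with ⟨u, U, hl, hu, hU', hJ, -⟩ |
    ⟨u, U, V, hl, hu, hU', hJ, hV1, hV2, hV⟩ | h3
  · have hu' : ∀ t ∈ u :: U, Lt.c ∉ t := by
      intro t ht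
      rcases List.mem_cons.1 ht with rfl | ht
      · exact hu
      · exact hU' t ht
    have := J_inj Lt.c hU hu' hJ
    have := congrArg List.length this
    simp only [List.length_append, List.length_replicate, List.length_cons, List.length_nil]
      at this
    omega
  · have hu' : ∀ t ∈ u :: U, Lt.c ∉ t := by
      intro t ht
      rcases List.mem_cons.1 ht with rfl | ht
      · exact hu
      · exact hU' t ht
    have h4 := J_inj Lt.c hU hu' hJ
    obtain ⟨M, hM⟩ : ∃ M, n + m - 1 = M + 1 + 1 := ⟨n + m - 3, by omega⟩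
    rw [hM, List.replicate_succ, List.replicate_succ, List.cons_append, List.cons_append] at h4
    simp only [List.cons.injEq] at h4
    have h5 := minimal hn hm hV1 hV2 (hV (vs n (n + m) (tms K)) (by rw [← h4.2]; simp))
    have h6 := minimal hn hm hV1 hV2 (hV (vs n (n + m) (tms K')) (by rw [← h4.2]; simp))
    have h7 := congrArg (List.count Lt.h) (h5.symm.trans h6)
    rw [vs_count, vs_count] at h7
    exact hK h7
  · omega

/-- The language of the word `ww n m` is not regular. -/
theorem ww_not_regular (n m : ℕ) (hn : 2 ≤ n) (hm : 1 ≤ m) :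
    ¬ (Lang n m (ww n m)).IsRegular := by
  rintro ⟨σ, _, M, hM⟩
  obtain ⟨k, k', hkk, hf⟩ := Finite.exists_ne_map_eq_of_infinite fun k : ℕ =>
    M.eval (J Lt.c (List.replicate (n + m - 1) (vs n (n + m) (tms (n + m * k)))))
  have h1 := vs_pow n m k (by omega) hm
  have e : List.replicate (n + m) (vs n (n + m) (tms (n + m * k))) =
      List.replicate (n + m - 1) (vs n (n + m) (tms (n + m * k))) ++
        [vs n (n + m) (tms (n + m * k))] := by
    conv_lhs => rw [show n + m = (n + m - 1) + 1 by omega]
    rw [List.replicate_succ']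
    congr 3 <;> omega
  rw [e, J_append, ← hM, DFA.mem_accepts, DFA.eval, DFA.evalFrom_of_append] at h1
  have h2 : M.evalFrom M.start (J Lt.c (List.replicate (n + m - 1)
      (vs n (n + m) (tms (n + m * k))))) = M.evalFrom M.start (J Lt.c (List.replicate (n + m - 1)
      (vs n (n + m) (tms (n + m * k'))))) := hf
  rw [h2, ← DFA.evalFrom_of_append] at h1
  have h3 : J Lt.c (List.replicate (n + m - 1) (vs n (n + m) (tms (n + m * k'))) ++
      [vs n (n + m) (tms (n + m * k))]) ∈ Lang n m (ww n m) := by
    rw [J_append, ← hM, DFA.mem_accepts]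
    exact h1
  refine not_mem hn hm ?_ h3
  intro h4
  have h5 : m * k' = m * k := by omega
  exact hkk (Nat.eq_of_mul_eq_mul_left hm h5).symm

end Pool.Agent.H344R3.FC
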