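import Pool.Agent.H344R3.FC.Gadget

/-!
# The words `v_s` are minimal
-/

set_option autoImplicit false

namespace Pool.Agent.H344R3.FC

open Pool.Agent.H344R3.FB

theorem J_pos {α : Type*} (c : α) (L : ℕ) : ∀ (U : List (List α)),
    (∀ u ∈ U, u.length + 1 = L) → ∀ i j, j < L →
      (J c U)[L * i + j]? = (U[i]?).bind fun u => (u ++ [c])[j]? := by
  intro U
  induction U with
  | nil => intro _ i j _; simp
  | cons u U ih =>
    intro h i j hj
    have hu : u.length + 1 = L := h u (by simp)
    have e : J c (u :: U) = (u ++ [c]) ++ J c U := by rw [J_cons]; simp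
    rw [e]
    cases i with
    | zero =>
      rw [List.getElem?_append_left (by simp; omega)]
      simp
    | succ i =>
      rw [List.getElem?_append_right (by
        simp only [List.length_append, List.length_cons, List.length_nil]
        rw [Nat.mul_succ]
        omega)]
      rw [List.getElem?_cons_succ, ← ih (fun v hv => h v (by simp [hv])) i j hj]
      congr 1
      simp only [List.length_append, List.length_cons, List.length_nil]
      rw [Nat.mul_succ]
      omega

/-- the two blocks -/
def bl (n N : ℕ) : Bool → List Lt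
  | false => Dk n N (n - 1) ++ Lt.e :: Dk n N (N - 1)
  | true => Dk n N (N - 1) ++ Lt.e :: Dk n N (n - 1)

theorem bl_len (n N : ℕ) (x : Bool) : (bl n N x).length = (bl n N false).length := by
  cases x
  · rfl
  · simp only [bl, List.length_append, List.length_cons]; omega

theorem bl_ne {n N : ℕ} (hn : 1 ≤ n) (hnN : n < N) : bl n N false ≠ bl n N true := by
  intro h
  obtain ⟨h1, -⟩ := split_unique Lt.e (Dk_not n N (n - 1)).1 (Dk_not n N (N - 1)).1 h
  have := congrArg (List.count Lt.d) h1
  rw [Dk_count_d, Dk_count_d] at this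
  omega

theorem bl_not_h (n N : ℕ) (x : Bool) : Lt.h ∉ bl n N x := by
  have h := fun k => (Dk_not n N k).2.1
  cases x <;> simp [bl, h]

theorem bl_not_c (n N : ℕ) (x : Bool) : Lt.c ∉ bl n N x := by
  have h := fun k => (Dk_not n N k).2.2
  cases x <;> simp [bl, h]

theorem bl_count_e (n N : ℕ) (x : Bool) : (bl n N x).count Lt.e = 1 := by
  have h := fun k => List.count_eq_zero_of_not_mem (Dk_not n N k).1
  cases x <;> simp [bl, h]

/-- the words of the antichain -/
def vs (n N : ℕ) (s : List Bool) : List Lt := J Lt.h (s.map (bl n N))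

/-- the beginnings of the Thue-Morse word -/
def tms (K : ℕ) : List Bool := (List.range K).map TM.tm

theorem mod_of_h {n N : ℕ} {s : List Bool} {k : ℕ}
    (h : (vs n N s)[k]? = some Lt.h) : k % ((bl n N false).length + 1) = (bl n N false).length := by
  set L := (bl n N false).length + 1 with hL
  have hlt : k % L < L := Nat.mod_lt _ (by omega)
  have h1 := J_pos Lt.h L (s.map (bl n N)) (by
    intro u hu
    obtain ⟨x, -, rfl⟩ := List.mem_map.1 hu
    rw [bl_len, hL]) (k / L) (k % L) hlt
  rw [Nat.div_add_mod] at h1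
  have h2 : (vs n N s)[k]? = (J Lt.h (s.map (bl n N)))[k]? := rfl
  rw [h2, h1] at h
  cases h3 : (s.map (bl n N))[k / L]? with
  | none => rw [h3] at h; simp at h
  | some u =>
    rw [h3, Option.bind_some] at h
    have h4 : u ∈ s.map (bl n N) := List.mem_of_getElem? h3
    obtain ⟨x, -, rfl⟩ := List.mem_map.1 h4
    by_contra h5
    rw [List.getElem?_append_left (by rw [bl_len]; omega)] at h
    exact bl_not_h n N x (List.mem_of_getElem? h)

/-- no power with the letter `h` -/
theorem no_h {n N K : ℕ} (hn : 1 ≤ n) (hnN : n < N) (hN : 3 ≤ N) {p x q : List Lt}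
    (h : vs n N (tms K) = p ++ (pw x N ++ q)) : Lt.h ∉ x := by
  intro hx
  set L := (bl n N false).length + 1 with hL
  have hLp : 0 < L := by omega
  have hxl : 0 < x.length := List.length_pos_of_mem hx
  -- the period
  have hper : ∀ t, t + x.length < N * x.length →
      (vs n N (tms K))[p.length + t]? = (vs n N (tms K))[p.length + t + x.length]? := by
    intro t ht
    have h1 := per_pw x N t (by rw [pw_length]; exact ht)
    rw [h, List.getElem?_append_right (by omega), List.getElem?_append_left (by
      rw [pw_length]; omega), List.getElem?_append_right (by omega),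
      List.getElem?_append_left (by rw [pw_length]; omega)]
    rw [show p.length + t - p.length = t by omega,
      show p.length + t + x.length - p.length = t + x.length by omega]
    exact h1
  have hlen : (vs n N (tms K)).length = p.length + (N * x.length + q.length) := by
    rw [h, List.length_append, List.length_append, pw_length]
  have hN3 : 3 * x.length ≤ N * x.length := Nat.mul_le_mul_right _ hN
  -- the letter `h` in `x`
  obtain ⟨t0, ht0, hxt⟩ := List.getElem_of_mem hx
  have h1 : (vs n N (tms K))[p.length + t0]? = some Lt.h := by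
    obtain ⟨M, hM⟩ : ∃ M, N = M + 1 := ⟨N - 1, by omega⟩
    rw [h, List.getElem?_append_right (by omega), List.getElem?_append_left (by
      rw [pw_length]; omega), hM, pw_succ, List.getElem?_append_left (by omega),
      show p.length + t0 - p.length = t0 by omega, List.getElem?_eq_getElem ht0, hxt]
  have h2 := hper t0 (by omega)
  rw [h1] at h2
  have h3 := mod_of_h h1
  have h4 := mod_of_h h2.symm
  rw [← hL] at h3 h4
  have h5 : L ∣ x.length := by
    have h6 : p.length + t0 ≡ p.length + t0 + x.length [MOD L] := by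
      show (p.length + t0) % L = (p.length + t0 + x.length) % L
      rw [h3, h4]
    have h7 : p.length + t0 + 0 ≡ p.length + t0 + x.length [MOD L] := by simpa using h6
    have h8 := Nat.ModEq.add_left_cancel' _ h7
    exact (Nat.modEq_zero_iff_dvd.1 h8.symm)
  obtain ⟨r, hr⟩ := h5
  have hr0 : 0 < r := by
    rcases Nat.eq_zero_or_pos r with h' | h'
    · rw [h', Nat.mul_zero] at hr; omega
    · exact h'
  -- the difference of the two blocks
  have hex : ∃ j0 : ℕ, (bl n N false ++ [Lt.h])[j0]? ≠ (bl n N true ++ [Lt.h])[j0]? := by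
    refine Classical.byContradiction fun h' => ?_
    have h'' : ∀ j : ℕ, (bl n N false ++ [Lt.h])[j]? = (bl n N true ++ [Lt.h])[j]? :=
      fun j => Classical.byContradiction fun h3 => h' ⟨j, h3⟩
    have := List.ext_getElem? h''
    rw [List.append_cancel_right_eq] at this
    exact bl_ne hn hnN this
  obtain ⟨j0, hj0⟩ := hex
  have hj0L : j0 < L := by
    by_contra h'
    apply hj0
    rw [List.getElem?_eq_none (by
      simp only [List.length_append, List.length_cons, List.length_nil]
      omega), List.getElem?_eq_none (by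
      simp only [List.length_append, List.length_cons, List.length_nil]
      rw [bl_len n N true]; omega)]
  have hblk : ∀ i, i < K → (vs n N (tms K))[L * i + j0]? = (bl n N (TM.tm i) ++ [Lt.h])[j0]? := by
    intro i hi
    have h6 := J_pos Lt.h L ((tms K).map (bl n N)) (by
      intro u hu
      obtain ⟨y, -, rfl⟩ := List.mem_map.1 hu
      rw [bl_len, hL]) i j0 hj0L
    have h7 : (vs n N (tms K))[L * i + j0]? = (J Lt.h ((tms K).map (bl n N)))[L * i + j0]? := rfl
    rw [h7, h6]
    have h8 : ((tms K).map (bl n N))[i]? = some (bl n N (TM.tm i)) := by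
      simp [tms, hi]
    rw [h8, Option.bind_some]
  have hvl : (vs n N (tms K)).length = L * K := by
    have : ∀ U : List (List Lt), (∀ u ∈ U, u.length + 1 = L) → (J Lt.h U).length = L * U.length := by
      intro U
      induction U with
      | nil => intro _; simp
      | cons u U ih =>
        intro h'
        rw [J_cons, List.length_append, List.length_cons, List.length_cons, ih (fun v hv =>
          h' v (by simp [hv])), Nat.mul_succ]
        have := h' u (by simp)
        omega
    have h6 := this ((tms K).map (bl n N)) (by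
      intro u hu
      obtain ⟨y, -, rfl⟩ := List.mem_map.1 hu
      rw [bl_len, hL])
    have h7 : (vs n N (tms K)).length = (J Lt.h ((tms K).map (bl n N))).length := rfl
    rw [h7, h6]
    simp [tms]
  set i0 := (p.length + (L - 1 - j0)) / L with hi0
  have hi1 : L * i0 ≤ p.length + (L - 1 - j0) := Nat.mul_div_le _ _
  have hi2 : p.length + (L - 1 - j0) < L * (i0 + 1) := by
    rw [Nat.mul_succ]
    have h6 := Nat.div_add_mod (p.length + (L - 1 - j0)) L
    rw [← hi0] at h6
    have h7 := Nat.mod_lt (p.length + (L - 1 - j0)) hLp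
    omega
  rw [Nat.mul_succ] at hi2
  refine TM.tm_overlap_free r hr0 i0 ?_
  intro k hk
  have e1 : L * (i0 + k) = L * i0 + L * k := Nat.mul_add _ _ _
  have e2 : L * (i0 + k + r) = L * i0 + L * k + L * r := by rw [Nat.mul_add, e1]
  have e3 : L * k ≤ L * r := Nat.mul_le_mul_left _ hk
  have e4 : L ≤ L * r := Nat.le_mul_of_pos_right _ hr0
  have h6 := hper (L * (i0 + k) + j0 - p.length) (by omega)
  rw [show p.length + (L * (i0 + k) + j0 - p.length) = L * (i0 + k) + j0 by omega] at h6
  have hK : i0 + k + r < K := by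
    have h7 : L * (i0 + k + r) < L * K := by omega
    exact Nat.lt_of_mul_lt_mul_left h7
  rw [hblk _ (by omega), show L * (i0 + k) + j0 + x.length = L * (i0 + k + r) + j0 by omega,
    hblk _ hK] at h6
  rw [show i0 + r + k = i0 + k + r by omega]
  by_contra h7
  cases h8 : TM.tm (i0 + k) <;> cases h9 : TM.tm (i0 + k + r)
  · exact h7 (by rw [h8, h9])
  · rw [h8, h9] at h6; exact hj0 h6
  · rw [h8, h9] at h6; exact hj0 h6.symm
  · exact h7 (by rw [h8, h9])

theorem run_last {N : ℕ} {s t : St} {u : List Lt} {y : Lt} (hy : y = Lt.e ∨ y = Lt.h)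
    (h : run N s (u ++ [y]) = some t) : t = St.start := by
  rw [run_append] at h
  cases h1 : run N s u with
  | none => rw [h1] at h; simp at h
  | some s1 =>
    rw [h1, Option.bind_some, run_cons] at h
    rcases hy with rfl | rfl
    · cases s1 with
      | start => simp [tr] at h
      | cnt j =>
        by_cases hj : j < N
        · simp [tr, hj] at h
        · simp [tr, hj, run_nil] at h; exact h.symm
    · cases s1 with
      | start => simp [tr] at h
      | cnt j =>
        by_cases hj : j < N
        · simp [tr, hj] at h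
        · simp [tr, hj, run_nil] at h; exact h.symm

theorem run_a (N k : ℕ) : run N St.start (List.replicate k Lt.a) = some St.start := by
  induction k with
  | zero => rfl
  | succ k ih => rw [List.replicate_succ, run_cons]; simpa [tr] using ih

theorem run_b (N : ℕ) : ∀ k j, j + k ≤ N → run N (St.cnt j) (List.replicate k Lt.b) =
    some (St.cnt (j + k)) := by
  intro k
  induction k with
  | zero => intro j _; rfl
  | succ k ih =>
    intro j hj
    rw [List.replicate_succ, run_cons]
    have h1 : j < N := by omega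
    simp only [tr, h1, if_true, Option.bind_some]
    rw [ih (j + 1) (by omega)]
    congr 2
    omega

theorem run_bad {n N : ℕ} (hnN : n < N) (r : List Lt) : run N St.start (List.replicate n Lt.a ++
    Lt.d :: (List.replicate n Lt.b ++ (Lt.a :: r))) = none := by
  rw [run_append, run_a, Option.bind_some, run_cons]
  simp only [tr, Option.bind_some]
  rw [run_append, run_b N n 0 (by omega), Option.bind_some, run_cons]
  simp [tr, hnN]

/-- a context in which the automaton is in the initial state -/
def Ctx (L : List Lt) : Prop := L = [] ∨ ∃ u y, (y = Lt.e ∨ y = Lt.h) ∧ L = u ++ [y]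

theorem I2_bad {n N : ℕ} (hnN : n < N) {L r : List Lt} (hL : Ctx L)
    (h : I2 N (L ++ (List.replicate n Lt.a ++ Lt.d :: (List.replicate n Lt.b ++ (Lt.a :: r))))) :
    False := by
  obtain ⟨t, ht⟩ := h
  rw [run_append] at ht
  cases h1 : run N St.start L with
  | none => rw [h1] at ht; simp at ht
  | some s1 =>
    have h2 : s1 = St.start := by
      rcases hL with rfl | ⟨u, y, hy, rfl⟩
      · exact (Option.some.inj h1).symm
      · exact run_last hy h1
    rw [h1, Option.bind_some, h2, run_bad hnN] at ht
    simp at ht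

theorem I1_bad {n N : ℕ} (hnN : n < N) {L T R r : List Lt} {z : Lt} (hz : z = Lt.e ∨ z = Lt.h)
    (hT : rs T = List.replicate n Lt.a ++ Lt.d :: (List.replicate n Lt.b ++ (Lt.a :: r)))
    (h : I1 N (L ++ (T ++ z :: R))) : False := by
  obtain ⟨t, ht⟩ := h
  have e : rs (L ++ (T ++ z :: R)) = (rs R ++ [sw z]) ++ ((List.replicate n Lt.a ++ Lt.d ::
      (List.replicate n Lt.b ++ (Lt.a :: (r ++ rs L))))) := by
    rw [rs_append, rs_append, rs_cons, hT]; simp
  have hz' : sw z = Lt.e ∨ sw z = Lt.h := by
    rcases hz with rfl | rfl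
    · left; rfl
    · right; rfl
  rw [e, run_append] at ht
  cases h1 : run N (St.cnt N) (rs R ++ [sw z]) with
  | none => rw [h1] at ht; simp at ht
  | some s1 =>
    have h2 := run_last hz' h1
    rw [h1, Option.bind_some, h2, run_bad hnN] at ht
    simp at ht

/-- The words `v_s` are minimal among the words with the two invariants. -/
theorem one_step {n m K : ℕ} (hn : 2 ≤ n) (hm : 1 ≤ m) {V : List Lt} (h1 : I1 (n + m) V)
    (h2 : I2 (n + m) V) (hs : Step n m V (vs n (n + m) (tms K))) : V = vs n (n + m) (tms K) := by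
  obtain ⟨p, x, q, hV, hv⟩ := hs
  by_cases hx : x = []
  · subst hx
    rw [hV, hv]
    simp
  exfalso
  set N := n + m with hN
  rw [List.append_assoc] at hv hV
  have hh := no_h (by omega) (by omega) (by omega) hv
  have hne : pw x N ≠ [] := by
    intro h'
    have := congrArg List.length h'
    rw [pw_length] at this
    have h5 := Nat.mul_pos (show 0 < N by omega) (List.length_pos_of_ne_nil hx)
    rw [this] at h5
    simp at h5
  obtain ⟨U', t, U'', p', q', e1, e2, e3, e4⟩ :=
    loc Lt.h ((tms K).map (bl n N)) hv (fun h' => hh (mem_pw h')) hne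
  have ht : ∃ y, t = bl n N y := by
    have : t ∈ (tms K).map (bl n N) := by rw [e1]; simp
    obtain ⟨y, -, hy⟩ := List.mem_map.1 this
    exact ⟨y, hy.symm⟩
  obtain ⟨y, hy⟩ := ht
  have he : Lt.e ∉ x := by
    intro h'
    have h5 := congrArg (List.count Lt.e) e2
    rw [hy, bl_count_e, List.count_append, List.count_append, pw_count] at h5
    have h6 : 0 < x.count Lt.e := List.count_pos_iff.2 h'
    have h7 : N * 1 ≤ N * x.count Lt.e := Nat.mul_le_mul_left _ h6
    omega
  obtain ⟨k1, k2, hk1, hk2, hkk⟩ : ∃ k1 k2, k1 + 2 ≤ N ∧ k2 + 2 ≤ N ∧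
      bl n N y = Dk n N (k1 + 1) ++ Lt.e :: Dk n N (k2 + 1) := by
    cases y
    · refine ⟨n - 2, N - 2, by omega, by omega, ?_⟩
      rw [bl, show n - 2 + 1 = n - 1 by omega, show N - 2 + 1 = N - 1 by omega]
    · refine ⟨N - 2, n - 2, by omega, by omega, ?_⟩
      rw [bl, show n - 2 + 1 = n - 1 by omega, show N - 2 + 1 = N - 1 by omega]
  have e5 : J Lt.e [Dk n N (k1 + 1), Dk n N (k2 + 1)] = p' ++ (pw x N ++ (q' ++ [Lt.e])) := by
    have : J Lt.e [Dk n N (k1 + 1), Dk n N (k2 + 1)] = bl n N y ++ [Lt.e] := by
      rw [hkk, J_cons, J_cons, J_nil]; simp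
    rw [this, ← hy, e2]; simp
  obtain ⟨U1, t1, U2, p1, q1, f1, f2, f3, f4⟩ :=
    loc Lt.e _ e5 (fun h' => he (mem_pw h')) hne
  -- the left context
  have hL : Ctx (J Lt.h U' ++ J Lt.e U1) := by
    rcases List.eq_nil_or_concat U1 with h5 | ⟨U1', u, h5⟩
    · rcases List.eq_nil_or_concat U' with h6 | ⟨U1', u, h6⟩
      · left; rw [h5, h6]; simp
      · right
        refine ⟨J Lt.h U1' ++ u, Lt.h, Or.inr rfl, ?_⟩
        rw [h5, h6, List.concat_eq_append, J_append, J_cons, J_nil]; simp
    · right
      refine ⟨J Lt.h U' ++ (J Lt.e U1' ++ u), Lt.e, Or.inl rfl, ?_⟩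
      rw [h5, List.concat_eq_append, J_append, J_cons, J_nil]; simp
  -- the right context
  have hR : ∃ z R, (z = Lt.e ∨ z = Lt.h) ∧ q = q1 ++ z :: R := by
    cases U2 with
    | nil =>
      rw [J_nil] at f4
      have : q' = q1 := by
        have h6 : q' ++ [Lt.e] = q1 ++ [Lt.e] := f4
        simpa using h6
      exact ⟨Lt.h, J Lt.h U'', Or.inr rfl, by rw [e4, this]⟩
    | cons u U2 =>
      refine ⟨Lt.e, (J Lt.e (u :: U2)).dropLast ++ Lt.h :: J Lt.h U'', Or.inl rfl, ?_⟩
      have h6 : q' = q1 ++ Lt.e :: (J Lt.e (u :: U2)).dropLast := by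
        have h7 := congrArg List.dropLast f4
        rw [List.dropLast_concat] at h7
        rw [h7, List.dropLast_append_of_ne_nil (by simp)]
        congr 1
        rw [List.dropLast_cons_of_ne_nil (by rw [J_cons]; simp)]
      rw [e4, h6]
      simp
  obtain ⟨z, R, hz, hq⟩ := hR
  have hV' : V = (J Lt.h U' ++ J Lt.e U1) ++ ((p1 ++ (pw x n ++ q1)) ++ z :: R) := by
    rw [hV, e3, f3, hq]; simp
  obtain ⟨k, hk, ht1⟩ : ∃ k, k + 2 ≤ N ∧ t1 = Dk n N (k + 1) := by
    have : t1 ∈ [Dk n N (k1 + 1), Dk n N (k2 + 1)] := by rw [f1]; simp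
    simp only [List.mem_cons, List.not_mem_nil, or_false] at this
    rcases this with h' | h'
    · exact ⟨k1, hk1, h'⟩
    · exact ⟨k2, hk2, h'⟩
  rw [ht1] at f2
  have hd := Dk_no_d (by omega) (by omega) hk f2
  rcases Dk_letter (by omega) (by omega) hx f2 hd with hxa | hxb
  · -- `x = a`
    subst hxa
    have f5 := congrArg rs f2
    rw [rs_Dk, rs_append, rs_append, rs_pw, List.append_assoc] at f5
    have f6 : rs [Lt.a] = [Lt.b] := rfl
    rw [f6] at f5
    obtain ⟨r, hr⟩ := Dk_b (by omega) (by omega) f5
    refine I1_bad (n := n) (N := N) (by omega) hz (T := p1 ++ (pw [Lt.a] n ++ q1)) (r := r)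
      ?_ (hV' ▸ h1)
    rw [← hr, rs_append, rs_append, rs_pw, List.append_assoc, f6]
  · subst hxb
    obtain ⟨r, hr⟩ := Dk_b (by omega) (by omega) f2
    refine I2_bad (n := n) (N := N) (by omega) hL (r := r ++ z :: R) ?_
    rw [hV', hr] at h2
    simpa using h2

end Pool.Agent.H344R3.FC
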